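import Mathlib
import Pool.Agent.Helper9.NS
import Pool.Agent.Helper26.VC.Main3

/-!
# Automorphisms of function fields acting on places, fixed fields
-/

namespace VQ

open VC Function

universe u

section act

variable {k F : Type u} [Field k] [Field F] [Algebra k F] (hF : IsFunctionField k F)

/-- The action of an automorphism of the function field `F` on the closed points of the smooth
projective curve: the valuation ring `R` is sent to `{x | σ x ∈ R}`. -/
def act (σ : F ≃ₐ[k] F) (P : Place k F) : Place k F :=
  Place.comap hF hF (σ : F →ₐ[k] F) P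

lemma mem_act (σ : F ≃ₐ[k] F) (P : Place k F) (x : F) :
    x ∈ (act hF σ P).ring ↔ σ x ∈ P.ring := Iff.rfl

lemma act_one (P : Place k F) : act hF 1 P = P := by
  ext x
  rw [mem_act]
  rfl

lemma act_mul (σ τ : F ≃ₐ[k] F) (P : Place k F) :
    act hF (σ * τ) P = act hF τ (act hF σ P) := by
  ext x
  rw [mem_act, mem_act, mem_act]
  rfl

end act

section fixed

variable {k F : Type u} [Field k] [Field F] [Algebra k F] (V : Subgroup (F ≃ₐ[k] F)) [Finite V]

instance isInvariant_fixed : Algebra.IsInvariant (IntermediateField.fixedField V) F V := by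
  constructor
  intro b hb
  exact ⟨⟨b, fun g => hb g⟩, rfl⟩

instance isAlgebraic_fixed : Algebra.IsAlgebraic (IntermediateField.fixedField V) F := by
  have : Algebra.IsIntegral (IntermediateField.fixedField V) F :=
    Algebra.IsInvariant.isIntegral (IntermediateField.fixedField V) F V
  infer_instance

theorem isFunctionField_fixed (hF : IsFunctionField k F) :
    IsFunctionField k (IntermediateField.fixedField V) := by
  obtain ⟨s, hs⟩ : ∃ s : IntermediateField.fixedField V, Transcendental k s := by
    by_contra hcon
    push Not at hcon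
    have h1 : Algebra.IsAlgebraic k (IntermediateField.fixedField V) :=
      ⟨fun x => by
        have := hcon x
        rwa [Transcendental, not_not] at this⟩
    have h2 : Algebra.IsAlgebraic k F :=
      Algebra.IsAlgebraic.trans k (IntermediateField.fixedField V) F
    obtain ⟨t, ht, _⟩ := hF
    exact ht (h2.isAlgebraic t)
  refine ⟨s, hs, ?_⟩
  have hs' : Transcendental k (algebraMap (IntermediateField.fixedField V) F s) :=
    (transcendental_algebraMap_iff (algebraMap (IntermediateField.fixedField V) F).injective).mpr hs
  have hfin := hF.finiteDimensional hs'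
  let i3 : Algebra (RatFunc k) (IntermediateField.fixedField V) := ratAlg s hs
  let i4 : Algebra (RatFunc k) F := ratAlg (algebraMap (IntermediateField.fixedField V) F s) hs'
  have hfK : FiniteDimensional (RatFunc k) F := finiteDimensional_ratAlg _ hs' hfin
  have s6 : IsScalarTower (RatFunc k) (IntermediateField.fixedField V) F := by
    apply IsScalarTower.of_algebraMap_eq'
    apply IsFractionRing.ringHom_ext (A := Polynomial k)
    intro x
    rw [RingHom.comp_apply]
    change (ratAlg (algebraMap (IntermediateField.fixedField V) F s) hs').algebraMap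
      (algebraMap (Polynomial k) (RatFunc k) x) =
      algebraMap (IntermediateField.fixedField V) F ((ratAlg s hs).algebraMap
        (algebraMap (Polynomial k) (RatFunc k) x))
    rw [ratAlg_poly, ratAlg_poly, Polynomial.aeval_algebraMap_apply]
  have h1 : FiniteDimensional (RatFunc k) (IntermediateField.fixedField V) :=
    FiniteDimensional.left (RatFunc k) (IntermediateField.fixedField V) F
  refine Module.Finite.of_equiv_equiv (RatFunc.algEquivOfTranscendental s hs).toRingEquiv
      (RingEquiv.refl (IntermediateField.fixedField V)) ?_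
  ext x
  rfl

end fixed

section trans

open Polynomial IsDedekindDomain

variable {k F : Type u} [Field k] [IsAlgClosed k] [CharZero k] [Field F] [Algebra k F]
  (hF : IsFunctionField k F) (V : Subgroup (F ≃ₐ[k] F)) [Finite V]

/-- A finite group of automorphisms acts transitively on the places with a given restriction to
the fixed field. -/
theorem exists_act (P P' : Place k F)
    (h : ∀ x ∈ IntermediateField.fixedField V, x ∈ P.ring ↔ x ∈ P'.ring) :
    ∃ σ : V, P' = act hF σ.1 P := by
  classical
  have : Fintype V := Fintype.ofFinite V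
  have hE := isFunctionField_fixed V hF
  obtain ⟨x, hxE, hx⟩ : ∃ x ∈ IntermediateField.fixedField V, x ∉ P.ring := by
    by_contra hcon
    push Not at hcon
    apply comap_ne_top hE hF (IsScalarTower.toAlgHom k (IntermediateField.fixedField V) F) P.ring
      P.ne_top
    rw [eq_top_iff]
    intro y _
    exact hcon y.1 y.2
  have hx0 : x ≠ 0 := by
    rintro rfl
    exact hx P.ring.zero_mem
  obtain ⟨t, htdef⟩ : ∃ t, t = x⁻¹ := ⟨_, rfl⟩
  have htE : t ∈ IntermediateField.fixedField V := by rw [htdef]; exact inv_mem hxE
  have htfix : ∀ σ : V, σ.1 t = t := fun σ => htE σ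
  have ht : t ∈ P.ring.nonunits := by
    rw [htdef, ValuationSubring.inv_mem_nonunits_iff]
    exact Or.inr hx
  have ht' : t ∈ P'.ring.nonunits := by
    rw [htdef, ValuationSubring.inv_mem_nonunits_iff]
    exact Or.inr (fun hh => hx ((h x hxE).mpr hh))
  have htr : Transcendental k t := transcendental_of_mem_nonunits P (by
    rw [htdef]; exact inv_ne_zero hx0) ht
  have hfin := hF.finiteDimensional htr
  let i1 : Algebra k[X] F := polyAlg t
  let i3 : Algebra (RatFunc k) F := ratAlg t htr
  have s1 : IsScalarTower k k[X] F := IsScalarTower.of_algebraMap_eq (fun x =>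
    (aeval t : k[X] →ₐ[k] F).commutes x |>.symm)
  have s3 : IsScalarTower k[X] (RatFunc k) F := IsScalarTower.of_algebraMap_eq (fun x =>
    (ratAlg_poly t htr x).symm)
  have f1 : FiniteDimensional (RatFunc k) F := finiteDimensional_ratAlg t htr hfin
  have hc0 : CharZero (RatFunc k) := charZero_of_injective_algebraMap (algebraMap k (RatFunc k)).injective
  have hBd : IsDedekindDomain (integralClosure k[X] F) :=
    integralClosure.isDedekindDomain k[X] (RatFunc k) F
  have hBf : IsFractionRing (integralClosure k[X] F) F :=
    integralClosure.isFractionRing_of_finite_extension (RatFunc k) F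
  have f1 : FaithfulSMul k[X] (integralClosure k[X] F) := by
    rw [faithfulSMul_iff_algebraMap_injective]
    intro x y hxy
    have h := congrArg (algebraMap (integralClosure k[X] F) F) hxy
    rw [← IsScalarTower.algebraMap_apply, ← IsScalarTower.algebraMap_apply,
      IsScalarTower.algebraMap_apply k[X] (RatFunc k) F,
      IsScalarTower.algebraMap_apply k[X] (RatFunc k) F] at h
    exact IsFractionRing.injective k[X] (RatFunc k) ((algebraMap (RatFunc k) F).injective h)
  have hX : algebraMap k[X] F X = t := by
    change aeval t X = t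
    simp
  have hov : ∀ σ : V, OverZero (act hF σ.1 P) := by
    intro σ
    unfold OverZero
    rw [hX]
    change _ ∈ (P.ring.comap _).nonunits
    rw [mem_nonunits_comap]
    change σ.1 t ∈ _
    rw [htfix]
    exact ht
  have hov' : OverZero P' := by
    unfold OverZero
    rw [hX]
    exact ht'
  by_contra hcon
  push Not at hcon
  set Q : V → Ideal (integralClosure k[X] F) := fun σ => center (integralClosure k[X] F) _ (hov σ)
    with hQ
  set Q' := center (integralClosure k[X] F) P' hov' with hQ'
  have hQp : ∀ σ, (Q σ).IsPrime := fun σ => by rw [hQ]; infer_instance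
  have hQ'p : Q'.IsPrime := by rw [hQ']; infer_instance
  have hQ'0 : Q' ≠ ⊥ := center_ne_bot (integralClosure k[X] F) P' hov'
  have hQ'm : Q'.IsMaximal := hQ'p.isMaximal hQ'0
  have hav : ¬ ((Q' : Set (integralClosure k[X] F)) ⊆ ⋃ σ ∈ ((Finset.univ : Finset V) : Set V), Q σ) := by
    intro hsub
    rw [Ideal.subset_union_prime 1 1 (fun σ _ _ _ => hQp σ)] at hsub
    obtain ⟨σ, _, hσ⟩ := hsub
    have heq : Q' = Q σ := hQ'm.eq_of_le (hQp σ).ne_top hσ
    exact hcon σ (center_injective (integralClosure k[X] F) P' _ hov' (hov σ) heq)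
  rw [Set.not_subset] at hav
  obtain ⟨b, hbQ', hb⟩ := hav
  have hb' : ∀ σ : V, b ∉ Q σ := by
    intro σ hσ
    apply hb
    simp only [Set.mem_iUnion]
    exact ⟨σ, by simp, hσ⟩
  rw [SetLike.mem_coe, hQ', mem_center] at hbQ'
  have hint : ∀ σ : V, IsIntegral k[X] (σ.1 (b : F)) := by
    intro σ
    let φ : F →ₐ[k[X]] F :=
      { (σ.1 : F ≃+* F).toRingHom with
        commutes' := by
          intro p
          change σ.1 (aeval t p) = aeval t p
          rw [← Polynomial.aeval_algHom_apply, htfix] }
    exact IsIntegral.map φ b.2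
  have hmem' : ∀ σ : V, σ.1 (b : F) ∈ P'.ring := fun σ => integral_mem P' hov' _ (hint σ)
  have hnon : ∀ σ : V, σ.1 (b : F) ∉ P.ring.nonunits := by
    intro σ hσ
    apply hb' σ
    rw [hQ]
    simp only
    rw [mem_center]
    change _ ∈ (P.ring.comap _).nonunits
    rw [mem_nonunits_comap]
    exact hσ
  have hne0 : ∀ σ : V, σ.1 (b : F) ≠ 0 := by
    intro σ h0
    exact hnon σ (by rw [h0]; exact (ValuationSubring.mem_nonunits_iff_or _).mpr (Or.inl rfl))
  have hinv : ∀ σ : V, (σ.1 (b : F))⁻¹ ∈ P.ring := by
    intro σ
    by_contra hc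
    exact hnon σ ((ValuationSubring.mem_nonunits_iff_or _).mpr (Or.inr hc))
  set N : F := ∏ σ : V, (σ.1 (b : F))⁻¹ with hN
  have hNP : N ∈ P.ring := P.ring.toSubring.prod_mem (fun σ _ => hinv σ)
  have hNE : N ∈ IntermediateField.fixedField V := by
    intro τ
    change τ.1 N = N
    rw [hN, map_prod]
    refine Fintype.prod_equiv (Equiv.mulLeft τ) _ _ (fun σ => ?_)
    rw [map_inv₀]
    rfl
  have hNP' : N ∈ P'.ring := (h N hNE).mp hNP
  have hbinv : (b : F)⁻¹ ∈ P'.ring := by
    have e : (b : F)⁻¹ = N * ∏ σ ∈ Finset.univ.erase (1 : V), σ.1 (b : F) := by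
      rw [hN, ← Finset.mul_prod_erase Finset.univ _ (Finset.mem_univ (1 : V)), mul_assoc,
        ← Finset.prod_mul_distrib]
      rw [Finset.prod_eq_one (fun σ _ => inv_mul_cancel₀ (hne0 σ)), mul_one]
      rfl
    rw [e]
    exact P'.ring.mul_mem _ _ hNP' (P'.ring.toSubring.prod_mem (fun σ _ => hmem' σ))
  rcases (ValuationSubring.mem_nonunits_iff_or _).mp hbQ' with h0 | h0
  · exact hne0 1 (by
      change (algebraMap _ F) b = 0
      exact h0)
  · exact h0 hbinv

end trans

end VQ
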