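import Mathlib
import Pool.Agent.Helper9.NS
import Pool.Agent.Helper26.VC.Move

/-!
# Moving points on a quotient of a curve, lifted to the curve
-/

namespace VQ

open VC Function IntermediateField

universe u

section lift

open Polynomial

variable {k F K : Type*} [Field k] [IsAlgClosed k] [CharZero k]
  [Field F] [Algebra k F] [Field K] [Algebra k K] [Algebra F K] [IsScalarTower k F K]

/-- Embeddings of function fields over `k(t)` in a Galois cover extend to this cover. -/
theorem exists_lift (t : F) (ht : Transcendental k t)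
    (G : Type*) [Group G] [Finite G] [MulSemiringAction G K]
    (hG : IsGaloisGroup G k⟮algebraMap F K t⟯ K)
    (φ : F →ₐ[k] K) (hφ : φ t = algebraMap F K t) :
    ∃ ψ : K →ₐ[k] K, ∀ x : F, ψ (algebraMap F K x) = φ x := by
  have htK : Transcendental k (algebraMap F K t) :=
    (transcendental_algebraMap_iff (algebraMap F K).injective).mpr ht
  let i1 : Algebra k[X] F := polyAlg t
  let i2 : Algebra k[X] K := polyAlg (algebraMap F K t)
  let i3 : Algebra (RatFunc k) F := ratAlg t ht
  let i4 : Algebra (RatFunc k) K := ratAlg (algebraMap F K t) htK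
  have s1 : IsScalarTower k k[X] F := IsScalarTower.of_algebraMap_eq (fun x =>
    (aeval t : k[X] →ₐ[k] F).commutes x |>.symm)
  have s2 : IsScalarTower k k[X] K := IsScalarTower.of_algebraMap_eq (fun x =>
    (aeval (algebraMap F K t) : k[X] →ₐ[k] K).commutes x |>.symm)
  have s3 : IsScalarTower k[X] (RatFunc k) F := IsScalarTower.of_algebraMap_eq (fun x =>
    (ratAlg_poly t ht x).symm)
  have s4 : IsScalarTower k[X] (RatFunc k) K := IsScalarTower.of_algebraMap_eq (fun x =>
    (ratAlg_poly (algebraMap F K t) htK x).symm)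
  have s5 : IsScalarTower k[X] F K := IsScalarTower.of_algebraMap_eq (fun x => by
    change aeval (algebraMap F K t) x = algebraMap F K (aeval t x)
    rw [Polynomial.aeval_algebraMap_apply])
  have s6 : IsScalarTower (RatFunc k) F K := by
    apply IsScalarTower.of_algebraMap_eq'
    apply IsFractionRing.ringHom_ext (A := k[X])
    intro x
    rw [RingHom.comp_apply, ← IsScalarTower.algebraMap_apply k[X] (RatFunc k) K,
      ← IsScalarTower.algebraMap_apply k[X] (RatFunc k) F, ← IsScalarTower.algebraMap_apply]
  have s8 : IsScalarTower k (RatFunc k) K := IsScalarTower.of_algebraMap_eq (fun x => by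
    rw [IsScalarTower.algebraMap_apply k k[X] (RatFunc k), ← IsScalarTower.algebraMap_apply
      k[X] (RatFunc k) K, ← IsScalarTower.algebraMap_apply k k[X] K])
  have g1 : IsGaloisGroup G (RatFunc k) K :=
    IsGaloisGroup.of_ringEquiv G k⟮algebraMap F K t⟯ (RatFunc k) K
      (RatFunc.algEquivOfTranscendental (algebraMap F K t) htK).symm.toRingEquiv (by
        intro x
        change algebraMap k⟮algebraMap F K t⟯ K (RatFunc.algEquivOfTranscendental
          (algebraMap F K t) htK ((RatFunc.algEquivOfTranscendental (algebraMap F K t) htK).symm x))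
          = _
        rw [AlgEquiv.apply_symm_apply])
  have f2 : FiniteDimensional (RatFunc k) K := IsGaloisGroup.finiteDimensional G (RatFunc k) K
  have g2 : IsGalois (RatFunc k) K := IsGaloisGroup.isGalois G (RatFunc k) K
  let φ' : F →ₐ[RatFunc k] K :=
    { φ.toRingHom with
      commutes' := by
        intro r
        have h : (φ.toRingHom.comp (algebraMap (RatFunc k) F)) = algebraMap (RatFunc k) K := by
          apply IsFractionRing.ringHom_ext (A := k[X])
          intro x
          rw [RingHom.comp_apply, ← IsScalarTower.algebraMap_apply k[X] (RatFunc k) K,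
            ← IsScalarTower.algebraMap_apply k[X] (RatFunc k) F]
          change φ (aeval t x) = aeval (algebraMap F K t) x
          rw [← Polynomial.aeval_algHom_apply, hφ]
        exact congrArg (fun f => f r) h }
  refine ⟨(φ'.liftNormal K).restrictScalars k, fun x => ?_⟩
  exact φ'.liftNormal_commutes K x

end lift

section move

variable {k F E : Type u} [Field k] [IsAlgClosed k] [CharZero k] [Field F] [Algebra k F]
  [Field E] [Algebra k E] [Algebra F E] [IsScalarTower k F E]
  (hF : IsFunctionField k F) (hE : IsFunctionField k E)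

/-- The image of a point under the morphism of curves given by `F → E`. -/
def res (P : Place k E) : Place k F := Place.comap hF hE (IsScalarTower.toAlgHom k F E) P

lemma res_comap {K : Type u} [Field K] [Algebra k K] (hK : IsFunctionField k K)
    (φ : F →ₐ[k] K) (ψ : E →ₐ[k] K) (h : ∀ x : F, ψ (algebraMap F E x) = φ x) (v : Place k K) :
    res hF hE (Place.comap hE hK ψ v) = Place.comap hF hK φ v := by
  ext x
  change ψ (algebraMap F E x) ∈ v.ring ↔ φ x ∈ v.ring
  rw [h]

/-- Data of a rational curve in a symmetric power of a curve joining two effective divisors,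
lifted to a covering curve. -/
theorem move_lift (g : ℕ) (hg : ∀ D : Place k F →₀ ℤ,
    (D.sum fun _ m => m) + 1 ≤ (Module.finrank k (riemannRochSpace k F D) : ℤ) + g)
    {J : Type*} [Finite J] (hJ : Nat.card J = g + 1) (x : J → Place k E) (o : Place k E) :
    ∃ y : J → Place k E, (∃ j, res hF hE (y j) = res hF hE o) ∧
      ((∃ τ : Equiv.Perm J, ∀ j, res hF hE (y j) = res hF hE (x (τ j))) ∨
      ∃ (K : Type u) (_ : Field K) (_ : Algebra k K) (hK : IsFunctionField k K)
        (z : J → (curve hE).Mor K) (T : K) (m : ℕ), T ≠ 0 ∧ 0 < m ∧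
        (∀ v : Place k K, 0 < ord v.ring T →
          ∃ τ : Equiv.Perm J, ∀ j, res hF hE ((curve hE).eval hK (z j) v) =
            res hF hE (x (τ j))) ∧
        (∀ v : Place k K, ord v.ring T < 0 →
          ∃ τ : Equiv.Perm J, ∀ j, res hF hE ((curve hE).eval hK (z j) v) =
            res hF hE (y (τ j))) ∧
        (∑ᶠ v : Place k K, max (ord v.ring T) 0 = (m : ℤ)) ∧
        (∑ᶠ v : Place k K, max (- ord v.ring T) 0 = (m : ℤ))) := by
  classical
  obtain ⟨f, hf0, hf1, hf2⟩ := exists_function (k := k) (F := F) g hg hJ
    (fun j => res hF hE (x j)) (res hF hE o)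
  by_cases ht : Transcendental k f
  swap
  · -- constant function
    have hint : IsIntegral k f := (not_not.mp ht : IsAlgebraic k f).isIntegral
    obtain ⟨b, hb⟩ : ∃ b : k, algebraMap k F b = f := by
      have hdeg := IsAlgClosed.degree_eq_one_of_irreducible k (minpoly.irreducible hint)
      exact (minpoly.mem_range_of_degree_eq_one k f hdeg)
    have hb0 : b ≠ 0 := by
      rintro rfl
      apply hf0
      rw [← hb, map_zero]
    rw [← hb, ord_algebraMap hF (res hF hE o) hb0, zero_add] at hf2
    have hne : Nonempty {j // res hF hE (x j) = res hF hE o} := by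
      by_contra hcon
      rw [not_nonempty_iff] at hcon
      rw [Nat.card_of_isEmpty] at hf2
      norm_num at hf2
    obtain ⟨j, hj⟩ := hne
    exact ⟨x, ⟨j, hj⟩, Or.inl ⟨1, fun _ => rfl⟩⟩
  · have htE : Transcendental k (algebraMap F E f) :=
      (transcendental_algebraMap_iff (algebraMap F E).injective).mpr ht
    obtain ⟨K, _, _, _, _, hK, G, _, _, _, hG₀⟩ := exists_cover hE (algebraMap F E f) htE
    let iFK : Algebra F K := ((algebraMap E K).comp (algebraMap F E)).toAlgebra
    have tFEK : IsScalarTower F E K := IsScalarTower.of_algebraMap_eq (fun _ => rfl)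
    have tkFK : IsScalarTower k F K := IsScalarTower.of_algebraMap_eq (fun a => by
      change algebraMap k K a = algebraMap E K (algebraMap F E (algebraMap k F a))
      rw [← IsScalarTower.algebraMap_apply k F E, ← IsScalarTower.algebraMap_apply k E K])
    have hG : IsGaloisGroup G k⟮algebraMap F K f⟯ K := hG₀
    set T : K := algebraMap F K f⁻¹ with hT
    have hfinv : Transcendental k f⁻¹ := by
      intro h
      apply ht
      have := h.inv
      rwa [inv_inv] at this
    have hTtr : Transcendental k T :=
      (transcendental_algebraMap_iff (algebraMap F K).injective).mpr hfinv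
    have hιtr : Transcendental k (algebraMap F K f) :=
      (transcendental_algebraMap_iff (algebraMap F K).injective).mpr ht
    have hTinv : T⁻¹ = algebraMap F K f := by rw [hT, map_inv₀, inv_inv]
    have hT0 : T ≠ 0 := by
      rw [hT, Ne, map_eq_zero]
      exact inv_ne_zero hf0
    have hadj : k⟮algebraMap F K f⁻¹⟯ = k⟮algebraMap F K f⟯ := by
      apply le_antisymm
      · rw [IntermediateField.adjoin_simple_le_iff, map_inv₀]
        exact inv_mem (IntermediateField.mem_adjoin_simple_self k _)
      · rw [IntermediateField.adjoin_simple_le_iff]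
        have h := inv_mem (IntermediateField.mem_adjoin_simple_self k (algebraMap F K f⁻¹))
        have h2 : (algebraMap F K f⁻¹)⁻¹ = algebraMap F K f := by rw [map_inv₀, inv_inv]
        rw [h2] at h
        exact h
    have hG' : IsGaloisGroup G k⟮algebraMap F K f⁻¹⟯ K := by rw [hadj]; exact hG
    -- the set of embeddings
    let Φ := {φ : F →ₐ[k] K // φ f = algebraMap F K f}
    have hΦ : Finite Φ := finite_homs f (hF.finiteDimensional ht)
    -- extensions of the embeddings
    have hlift : ∀ φ : Φ, ∃ ψ : E →ₐ[k] K, ∀ x : F, ψ (algebraMap F E x) = φ.1 x := by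
      intro φ
      obtain ⟨ψ, hψ⟩ := exists_lift (K := K) f ht G hG φ.1 φ.2
      exact ⟨ψ.comp (IsScalarTower.toAlgHom k E K), hψ⟩
    choose Λ hΛ using hlift
    have hres : ∀ (φ : Φ) (v : Place k K), res hF hE (Place.comap hE hK (Λ φ) v) =
        Place.comap hF hK φ.1 v := fun φ v => res_comap hF hE hK φ.1 (Λ φ) (hΛ φ) v
    have cnt0 : ∀ v : Place k K, algebraMap F K f ∈ v.ring.nonunits → ∀ P : Place k F,
        (Nat.card {φ : Φ // Place.comap hF hK φ.1 v = P} : ℤ) = max (ord P.ring f) 0 := by
      intro v hv P
      rw [← card_cover hF hK f ht G hG v hv P]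
      congr 1
      refine Nat.card_congr ⟨fun φ => ⟨φ.1.1, φ.1.2, φ.2⟩, fun φ => ⟨⟨φ.1, φ.2.1⟩, φ.2.2⟩, ?_, ?_⟩
      · intro φ; rfl
      · intro φ; rfl
    have cnt1 : ∀ v : Place k K, T ∈ v.ring.nonunits → ∀ P : Place k F,
        (Nat.card {φ : Φ // Place.comap hF hK φ.1 v = P} : ℤ) = max (- ord P.ring f) 0 := by
      intro v hv P
      rw [← ord_inv hF P hf0, ← card_cover hF hK f⁻¹ hfinv G hG' v hv P]
      congr 1
      refine Nat.card_congr ⟨fun φ => ⟨φ.1.1, ?_, φ.2⟩, fun φ => ⟨⟨φ.1, ?_⟩, φ.2.2⟩, ?_, ?_⟩
      · rw [map_inv₀, φ.1.2, map_inv₀]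
      · have h := (map_inv₀ φ.1 f).symm.trans (φ.2.1.trans (map_inv₀ (algebraMap F K) f))
        exact inv_injective h
      · intro φ; rfl
      · intro φ; rfl
    obtain ⟨v0, hv0⟩ := exists_place hK hιtr
    obtain ⟨v1, hv1⟩ := exists_place hK hTtr
    obtain ⟨e, he⟩ := exists_embedding_of_fibres (fun φ : Φ => Place.comap hF hK φ.1 v1)
      (fun j => res hF hE (x j)) (by
      intro P
      have h1 := cnt1 v1 hv1 P
      have h2 := hf1 P
      have h3 : (Nat.card {φ : Φ // Place.comap hF hK φ.1 v1 = P} : ℤ) ≤
          Nat.card {j // res hF hE (x j) = P} := by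
        rw [h1]
        apply max_le <;> omega
      exact_mod_cast h3)
    have hex : ∀ φ : Φ, res hF hE (x (e φ)) = Place.comap hF hK φ.1 v1 := fun φ => congrFun he φ
    let y : J → Place k E := fun j => if h : ∃ φ, e φ = j then
      Place.comap hE hK (Λ h.choose) v0 else x j
    have hye : ∀ φ : Φ, res hF hE (y (e φ)) = Place.comap hF hK φ.1 v0 := by
      intro φ
      have h : ∃ ψ, e ψ = e φ := ⟨φ, rfl⟩
      have h2 : h.choose = φ := e.injective h.choose_spec
      simp only [y]
      rw [dif_pos h, h2, hres]
    have hyn : ∀ j, (¬ ∃ φ, e φ = j) → y j = x j := by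
      intro j hj
      simp only [y]
      rw [dif_neg hj]
    let z : J → (curve hE).Mor K := fun j => if h : ∃ φ, e φ = j then
      Sum.inr (Λ h.choose) else Sum.inl (x j)
    have hze : ∀ φ : Φ, z (e φ) = Sum.inr (Λ φ) := by
      intro φ
      have h : ∃ ψ, e ψ = e φ := ⟨φ, rfl⟩
      have h2 : h.choose = φ := e.injective h.choose_spec
      simp only [z]
      rw [dif_pos h, h2]
    have hzn : ∀ j, (¬ ∃ φ, e φ = j) → z j = Sum.inl (x j) := by
      intro j hj
      simp only [z]
      rw [dif_neg hj]
    refine ⟨y, ?_, Or.inr ⟨K, _, _, hK, z, T, Nat.card {φ : K →ₐ[k] K // φ T = T}, hT0, ?_,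
      ?_, ?_, ?_, ?_⟩⟩
    · -- `o` is one of the new points
      by_cases ho : 0 < ord (res hF hE o).ring f
      · have h1 := cnt0 v0 hv0 (res hF hE o)
        rw [max_eq_left ho.le] at h1
        have hne : Nonempty {φ : Φ // Place.comap hF hK φ.1 v0 = res hF hE o} := by
          by_contra hcon
          rw [not_nonempty_iff] at hcon
          rw [Nat.card_of_isEmpty] at h1
          push_cast at h1
          omega
        obtain ⟨φ, hφ⟩ := hne
        exact ⟨e φ, by rw [hye, hφ]⟩
      · have h1 := cnt1 v1 hv1 (res hF hE o)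
        by_contra hcon
        push Not at hcon
        have hall : ∀ j, res hF hE (x j) = res hF hE o → ∃ φ, e φ = j := by
          intro j hj
          by_contra hc
          exact hcon j (by rw [hyn j hc, hj])
        have hle : Nat.card {j // res hF hE (x j) = res hF hE o} ≤
            Nat.card {φ : Φ // Place.comap hF hK φ.1 v1 = res hF hE o} := by
          choose s hs using hall
          have hinj : Function.Injective (fun j : {j // res hF hE (x j) = res hF hE o} =>
              (⟨s j.1 j.2, by rw [← hex, hs, j.2]⟩ :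
                {φ : Φ // Place.comap hF hK φ.1 v1 = res hF hE o})) := by
            intro j j' hjj
            have h2 : s j.1 j.2 = s j'.1 j'.2 := congrArg Subtype.val hjj
            have h3 := congrArg e h2
            rw [hs, hs] at h3
            exact Subtype.ext h3
          exact Nat.card_le_card_of_injective _ hinj
        have hle' : (Nat.card {j // res hF hE (x j) = res hF hE o} : ℤ) ≤
            Nat.card {φ : Φ // Place.comap hF hK φ.1 v1 = res hF hE o} := by exact_mod_cast hle
        rw [h1, max_eq_left (by omega)] at hle'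
        omega
    · have : Finite {φ : K →ₐ[k] K // φ T = T} :=
        finite_homs (K := K) T (hK.finiteDimensional hTtr)
      have : Nonempty {φ : K →ₐ[k] K // φ T = T} := ⟨⟨AlgHom.id k K, rfl⟩⟩
      exact Nat.card_pos
    · intro v hv
      rw [ord_pos_iff hK v hT0] at hv
      obtain ⟨π, hπ⟩ := exists_perm_of_fibres (fun φ : Φ => Place.comap hF hK φ.1 v)
        (fun φ : Φ => Place.comap hF hK φ.1 v1) (by
          intro P
          have h1 := cnt1 v hv P
          have h2 := cnt1 v1 hv1 P
          rw [← h2] at h1
          exact_mod_cast h1)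
      have hπ' : ∀ φ : Φ, Place.comap hF hK φ.1 v = Place.comap hF hK (π φ).1 v1 :=
        fun φ => congrFun hπ φ
      refine ⟨π.viaEmbedding e, ?_⟩
      intro j
      by_cases hj : ∃ φ, e φ = j
      · obtain ⟨φ, rfl⟩ := hj
        rw [hze, Equiv.Perm.viaEmbedding_apply, hex, ← hπ', hres]
      · rw [hzn j hj, Equiv.Perm.viaEmbedding_apply_of_notMem]
        rintro ⟨φ, hφ⟩
        exact hj ⟨φ, hφ⟩
    · intro v hv
      have hv' : algebraMap F K f ∈ v.ring.nonunits := by
        rw [← hTinv, ← ord_pos_iff hK v (inv_ne_zero hT0), ord_inv hK v hT0]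
        omega
      obtain ⟨π, hπ⟩ := exists_perm_of_fibres (fun φ : Φ => Place.comap hF hK φ.1 v)
        (fun φ : Φ => Place.comap hF hK φ.1 v0) (by
          intro P
          have h1 := cnt0 v hv' P
          have h2 := cnt0 v0 hv0 P
          rw [← h2] at h1
          exact_mod_cast h1)
      have hπ' : ∀ φ : Φ, Place.comap hF hK φ.1 v = Place.comap hF hK (π φ).1 v0 :=
        fun φ => congrFun hπ φ
      refine ⟨π.viaEmbedding e, ?_⟩
      intro j
      by_cases hj : ∃ φ, e φ = j
      · obtain ⟨φ, rfl⟩ := hj
        rw [hze, Equiv.Perm.viaEmbedding_apply, hye, ← hπ', hres]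
      · rw [hzn j hj, Equiv.Perm.viaEmbedding_apply_of_notMem, hyn j hj]
        rintro ⟨φ, hφ⟩
        exact hj ⟨φ, hφ⟩
    · exact sum_ord_galois hK T hTtr G hG'
    · have h1 := sum_ord_galois hK (algebraMap F K f) hιtr G hG
      rw [← hTinv] at h1
      have h2 : Nat.card {φ : K →ₐ[k] K // φ T⁻¹ = T⁻¹} = Nat.card {φ : K →ₐ[k] K // φ T = T} := by
        apply Nat.card_congr
        apply Equiv.subtypeEquivRight
        intro φ
        rw [map_inv₀, inv_inj]
      rw [← h2, ← h1]
      apply finsum_congr
      intro v
      rw [ord_inv hK v hT0]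

end move

end VQ
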