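import Mathlib
import Pool.Agent.Helper9.NS
import Pool.Agent.Helper26.VC.Chow
import Pool.Agent.Helper94.VQ.Act
import Pool.Agent.Helper94.VQ.MoveLift

/-!
# Symmetrized and averaged cycles
-/

namespace VQ

open VC Function

universe u

section

variable {k E : Type u} [Field k] [IsAlgClosed k] [CharZero k] [Field E] [Algebra k E]
  (hE : IsFunctionField k E) (H : Subgroup (E ≃ₐ[k] E)) [Finite H]

/-- The image of a point on the quotient curve. -/
def resF (P : Place k E) : Place k (IntermediateField.fixedField H) :=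
  res (isFunctionField_fixed H hE) hE P

omit [IsAlgClosed k] [CharZero k] in
lemma resF_act (h : H) (P : Place k E) : resF hE H (act hE h.1 P) = resF hE H P := by
  ext x
  change h.1 (algebraMap _ E x) ∈ P.ring ↔ algebraMap _ E x ∈ P.ring
  have : h.1 (algebraMap (IntermediateField.fixedField H) E x) = algebraMap _ E x := x.2 h
  rw [this]

lemma exists_act_of_resF {P P' : Place k E} (h : resF hE H P = resF hE H P') :
    ∃ σ : H, P' = act hE σ.1 P := by
  apply exists_act hE H P P'
  intro x hx
  have h1 : (⟨x, hx⟩ : IntermediateField.fixedField H) ∈ (resF hE H P).ring ↔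
      (⟨x, hx⟩ : IntermediateField.fixedField H) ∈ (resF hE H P').ring := by rw [h]
  exact h1

/-- The action on morphisms from curves. -/
def actM {K : Type u} [Field K] [Algebra k K] (σ : E ≃ₐ[k] E) (m : (curve hE).Mor K) :
    (curve hE).Mor K :=
  match m with
  | Sum.inl P => Sum.inl (act hE σ P)
  | Sum.inr φ => Sum.inr (φ.comp (σ : E →ₐ[k] E))

omit [IsAlgClosed k] [CharZero k] in
lemma eval_actM {K : Type u} [Field K] [Algebra k K] (hK : IsFunctionField k K)
    (σ : E ≃ₐ[k] E) (m : (curve hE).Mor K) (v : Place k K) :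
    (curve hE).eval hK (actM hE σ m) v = act hE σ ((curve hE).eval hK m v) := by
  rcases m with P | φ
  · rfl
  · ext x
    rfl

variable [Fintype H]

/-- The averaged cycle. -/
noncomputable def avg {J : Type*} [Fintype J] [DecidableEq J] {α : Type u}
    (ins : (J → Place k E) → α) (w : J → Place k E) :
    α →₀ ℤ :=
  ∑ h : J → H, Finsupp.single (ins (fun j => act hE (h j).1 (w j))) 1

lemma avg_congr {J : Type*} [Fintype J] [DecidableEq J] {α : Type u}
    (ins : (J → Place k E) → α) (w w' : J → Place k E)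
    (h : ∀ j, resF hE H (w j) = resF hE H (w' j)) :
    avg hE H ins w = avg hE H ins w' := by
  choose σ hσ using fun j => exists_act_of_resF hE H (h j)
  unfold avg
  symm
  refine Fintype.sum_equiv (Equiv.mulLeft σ) _ _ (fun h => ?_)
  congr 2
  funext j
  rw [hσ j, ← act_mul]
  rfl

/-- Symmetrized averaged cycles supported at `g + 1` points, `g` the genus of the quotient curve,
can be moved so that one of the points lies in the orbit of a given point. -/
theorem move_sum_lift (g : ℕ)
    (hg : ∀ D : Place k (IntermediateField.fixedField H) →₀ ℤ,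
      (D.sum fun _ m => m) + 1 ≤
        (Module.finrank k (riemannRochSpace k (IntermediateField.fixedField H) D) : ℤ) + g)
    {J : Type*} [Fintype J] [DecidableEq J] (hJ : Fintype.card J = g + 1)
    (X : Variety k) (ins : (J → Place k E) → X.Pt)
    (hins : ∀ (K : Type u) [Field K] [Algebra k K] (hK : IsFunctionField k K)
      (z : J → (curve hE).Mor K), ∃ c : X.Mor K, ∀ v, X.eval hK c v =
        ins (fun j => (curve hE).eval hK (z j) v))
    (x : J → Place k E) (o : Place k E) :
    ∃ y : J → Place k E, (∃ j, ∃ σ : H, y j = act hE σ.1 o) ∧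
      cl X (∑ τ : Equiv.Perm J, avg hE H ins (x ∘ τ)) =
      cl X (∑ τ : Equiv.Perm J, avg hE H ins (y ∘ τ)) := by
  have hperm : ∀ (w : J → Place k E) (σ : Equiv.Perm J),
      ∑ τ : Equiv.Perm J, (avg hE H ins ((w ∘ σ) ∘ τ) : X.Cycles) =
      ∑ τ : Equiv.Perm J, avg hE H ins (w ∘ τ) := by
    intro w σ
    refine Fintype.sum_equiv (Equiv.mulLeft σ) _ _ (fun τ => ?_)
    rfl
  have hperm' : ∀ (w w' : J → Place k E) (σ : Equiv.Perm J)
      (_ : ∀ j, resF hE H (w' j) = resF hE H (w (σ j))),
      ∑ τ : Equiv.Perm J, (avg hE H ins (w' ∘ τ) : X.Cycles) =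
      ∑ τ : Equiv.Perm J, avg hE H ins (w ∘ τ) := by
    intro w w' σ hw
    rw [← hperm w σ]
    apply Finset.sum_congr rfl
    intro τ _
    apply avg_congr
    intro j
    exact hw (τ j)
  obtain ⟨y, ⟨j, hj⟩, h⟩ := move_lift (isFunctionField_fixed H hE) hE g hg
    (by rw [Nat.card_eq_fintype_card]; exact hJ) x o
  obtain ⟨σ₀, hσ₀⟩ := exists_act_of_resF hE H (P := o) (P' := y j) hj.symm
  refine ⟨y, ⟨j, σ₀, hσ₀⟩, ?_⟩
  rcases h with ⟨σ, hσ⟩ | ⟨K, _, _, hK, z, T, m, hT, hm, hpos, hneg, hsum1, hsum2⟩
  · rw [hperm' x y σ hσ]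
  · rw [cl_eq_iff]
    refine ⟨m, hm, ?_⟩
    set s := (finite_support_ord hK hT).toFinset with hs
    choose c hc using fun (τ : Equiv.Perm J) (h : J → H) =>
      hins K hK (fun j => actM hE (h j).1 ((z ∘ τ) j))
    have h1 : ∑ τ : Equiv.Perm J, ∑ h : J → H, ∑ v ∈ s,
        Finsupp.single (X.eval hK (c τ h) v) (ord v.ring T) ∈
        X.Rat := AddSubgroup.sum_mem _ (fun τ _ => AddSubgroup.sum_mem _
          (fun h _ => gen_mem X hK (c τ h) hT))
    have h1' : ∑ v ∈ s, ∑ τ : Equiv.Perm J, ∑ h : J → H,
        (Finsupp.single (X.eval hK (c τ h) v) (ord v.ring T) : X.Cycles) ∈ X.Rat := by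
      rw [Finset.sum_comm, Finset.sum_congr rfl (fun τ _ => Finset.sum_comm)]
      exact h1
    have h2 : ∀ v : Place k K, ∑ τ : Equiv.Perm J, ∑ h : J → H,
        (Finsupp.single (X.eval hK (c τ h) v) (ord v.ring T) : X.Cycles) =
        max (ord v.ring T) 0 • ∑ τ : Equiv.Perm J, avg hE H ins (x ∘ τ) -
        max (- ord v.ring T) 0 • ∑ τ : Equiv.Perm J, avg hE H ins (y ∘ τ) := by
      intro v
      have h3 : ∀ τ : Equiv.Perm J, ∑ h : J → H,
          (Finsupp.single (X.eval hK (c τ h) v) (ord v.ring T) : X.Cycles) =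
          ord v.ring T • avg hE H ins ((fun j => (curve hE).eval hK (z j) v) ∘ τ) := by
        intro τ
        unfold avg
        rw [Finset.smul_sum]
        apply Finset.sum_congr rfl
        intro h _
        rw [hc, Finsupp.smul_single, smul_eq_mul, mul_one]
        congr 2
        funext j
        rw [eval_actM]
        rfl
      rw [Finset.sum_congr rfl (fun τ _ => h3 τ), ← Finset.smul_sum]
      rcases lt_trichotomy (ord v.ring T) 0 with hlt | heq | hgt
      · obtain ⟨σ, hσ⟩ := hneg v hlt
        rw [hperm' y _ σ hσ, max_eq_right hlt.le, max_eq_left (by omega), zero_smul, zero_sub,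
          neg_smul, neg_neg]
      · rw [heq]
        simp
      · obtain ⟨σ, hσ⟩ := hpos v hgt
        rw [hperm' x _ σ hσ, max_eq_left hgt.le, max_eq_right (by omega), zero_smul, sub_zero]
    rw [Finset.sum_congr rfl (fun v _ => h2 v), Finset.sum_sub_distrib, ← Finset.sum_smul,
      ← Finset.sum_smul] at h1'
    have h4 : ∑ v ∈ s, max (ord v.ring T) 0 = (m : ℤ) := by
      rw [← hsum1, finsum_eq_sum_of_support_subset]
      rw [hs, Set.Finite.coe_toFinset]
      intro v hv
      rw [Set.mem_ofPred_eq]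
      intro h0
      apply hv
      beta_reduce
      rw [h0, max_self]
    have h5 : ∑ v ∈ s, max (- ord v.ring T) 0 = (m : ℤ) := by
      rw [← hsum2, finsum_eq_sum_of_support_subset]
      rw [hs, Set.Finite.coe_toFinset]
      intro v hv
      rw [Set.mem_ofPred_eq]
      intro h0
      apply hv
      beta_reduce
      rw [h0, neg_zero, max_self]
    rw [h4, h5, natCast_zsmul, natCast_zsmul, ← smul_sub] at h1'
    exact h1'

end

end VQ
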