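import Mathlib
import Pool.Agent.Helper9.NS
import Pool.Agent.Helper26.VC.Ext

/-!
# Operators on zero-cycles given by combinations of self-maps
-/

namespace VQ

open VC Function

universe u

variable {k : Type u} [Field k]

/-- A combination with integral coefficients of self-maps of a variety. -/
structure IOp (X : Variety k) where
  /-- index set -/
  ι : Type u
  /-- the index set is finite -/
  fin : Fintype ι
  /-- coefficients -/
  c : ι → ℤ
  /-- maps -/
  r : ι → X.Pt → X.Pt
  ind : ∀ b, Induced X X (r b)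

/-- the action on cycles -/
noncomputable def IOp.toLin {X : Variety k} (A : IOp X) : X.Cycles →ₗ[ℤ] X.Cycles :=
  letI := A.fin
  ∑ b : A.ι, A.c b • Finsupp.lmapDomain ℤ ℤ (A.r b)

/-- identity -/
def IOp.id (X : Variety k) : IOp X where
  ι := PUnit
  fin := inferInstance
  c := fun _ => 1
  r := fun _ => _root_.id
  ind := by
    intro _ K _ _ hK c
    exact ⟨c, fun v => rfl⟩

lemma IOp.id_toLin (X : Variety k) : (IOp.id X).toLin = LinearMap.id := by
  unfold IOp.toLin IOp.id
  ext x
  simp [Finsupp.lmapDomain_apply, Finsupp.mapDomain_single]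

/-- product -/
def IOp.prod {X Y : Variety k} (A : IOp X) (B : IOp Y) : IOp (X.prod Y) where
  ι := A.ι × B.ι
  fin := letI := A.fin; letI := B.fin; inferInstance
  c := fun b => A.c b.1 * B.c b.2
  r := fun b p => (A.r b.1 p.1, B.r b.2 p.2)
  ind := by
    intro b K _ _ hK c
    obtain ⟨c₁, h₁⟩ := A.ind b.1 K hK c.1
    obtain ⟨c₂, h₂⟩ := B.ind b.2 K hK c.2
    refine ⟨(c₁, c₂), fun v => ?_⟩
    change (X.eval hK c₁ v, Y.eval hK c₂ v) = _
    rw [h₁, h₂]

/-- powers -/
def IOp.pow {X : Variety k} {n : ℕ} (A : Fin n → IOp X) : IOp (X.pow n) where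
  ι := ∀ i, (A i).ι
  fin := letI := fun i => (A i).fin; inferInstance
  c := fun s => ∏ i, (A i).c (s i)
  r := fun s p i => (A i).r (s i) (p i)
  ind := by
    intro s K _ _ hK c
    choose d hd using fun i => (A i).ind (s i) K hK (c i)
    exact ⟨d, fun v => funext (fun i => hd i v)⟩

lemma mapDomain_ext'' {α β : Type u} {n : ℕ} (r : Fin n → α → β) (b : Fin n → (α →₀ ℤ)) :
    Finsupp.mapDomain (fun (p : Fin n → α) i => r i (p i)) (ext' b) =
      ext' (fun i => Finsupp.mapDomain (r i) (b i)) := by
  have h : (Finsupp.lmapDomain ℤ ℤ (fun (p : Fin n → α) i => r i (p i))).compMultilinearMap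
      (extM α n) = (extM β n).compLinearMap (fun i => Finsupp.lmapDomain ℤ ℤ (r i)) := by
    apply Module.Basis.ext_multilinear (fun _ => (Finsupp.basisSingleOne : Module.Basis α ℤ _))
    intro p
    simp only [Finsupp.coe_basisSingleOne, LinearMap.compMultilinearMap_apply, extM_apply,
      MultilinearMap.compLinearMap_apply, Finsupp.lmapDomain_apply, Finsupp.mapDomain_single,
      ext'_single]
  exact congrArg (fun f => f b) h

lemma IOp.pow_ext' {X : Variety k} {n : ℕ} (A : Fin n → IOp X) (a : Fin n → X.Cycles) :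
    (IOp.pow A).toLin (ext' a) = ext' (fun i => (A i).toLin (a i)) := by
  classical
  let _ := fun i => (A i).fin
  have h1 : ∀ i, (A i).toLin (a i) = ∑ b : (A i).ι, (A i).c b •
      Finsupp.mapDomain ((A i).r b) (a i) := by
    intro i
    unfold IOp.toLin
    rw [LinearMap.sum_apply]
    rfl
  simp only [h1]
  rw [← extM_apply (α := X.Pt) (fun i => ∑ b : (A i).ι, (A i).c b •
      Finsupp.mapDomain ((A i).r b) (a i)), MultilinearMap.map_sum]
  unfold IOp.toLin
  rw [LinearMap.sum_apply]
  apply Finset.sum_congr rfl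
  intro s _
  rw [MultilinearMap.map_smul_univ, extM_apply, LinearMap.smul_apply, Finsupp.lmapDomain_apply]
  congr 1
  exact mapDomain_ext'' (fun i => (A i).r (s i)) a

variable [IsAlgClosed k] [CharZero k]

lemma IOp.toLin_rat {X : Variety k} (A : IOp X) {z : X.Cycles} (hz : z ∈ X.Rat) :
    A.toLin z ∈ X.Rat := by
  let _ := A.fin
  unfold IOp.toLin
  rw [LinearMap.sum_apply]
  apply AddSubgroup.sum_mem
  intro b _
  rw [LinearMap.smul_apply]
  exact AddSubgroup.zsmul_mem _ (map_rat X X _ (A.ind b) hz) _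

/-- the action on the Chow group -/
noncomputable def IOp.chow {X : Variety k} (A : IOp X) : ChowQ X →ₗ[ℤ] ChowQ X :=
  LinearMap.lTensor ℚ (QuotientAddGroup.map X.Rat X.Rat A.toLin.toAddMonoidHom
    (fun _ hz => A.toLin_rat hz)).toIntLinearMap

lemma IOp.chow_cl {X : Variety k} (A : IOp X) (z : X.Cycles) :
    A.chow (cl X z) = cl X (A.toLin z) := by
  unfold IOp.chow cl
  rfl

end VQ
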