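import Mathlib
import Pool.Agent.Helper9.NS
import Pool.Agent.Helper26.VC.Product
import Pool.Agent.Helper94.VQ.MoveSum
import Pool.Agent.Helper94.VQ.Ops

/-!
# Symmetrization over more than `g` positions kills the averaged cycles
-/

namespace VQ

open VC Function
open scoped TensorProduct

universe u

section box

variable {α β : Type u}

/-- box product of cycles -/
noncomputable def bx (a : α →₀ ℤ) (b : β →₀ ℤ) : α × β →₀ ℤ :=
  finsuppTensorFinsupp' ℤ α β (a ⊗ₜ[ℤ] b)

lemma bx_zero_left (b : β →₀ ℤ) : bx (0 : α →₀ ℤ) b = 0 := by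
  unfold bx
  rw [TensorProduct.zero_tmul, map_zero]

lemma bx_zero_right (a : α →₀ ℤ) : bx a (0 : β →₀ ℤ) = 0 := by
  unfold bx
  rw [TensorProduct.tmul_zero, map_zero]

lemma bx_single (a : α) (b : β) (m n : ℤ) :
    bx (Finsupp.single a m) (Finsupp.single b n) = Finsupp.single (a, b) (m * n) := by
  unfold bx
  rw [finsuppTensorFinsupp'_single_tmul_single]

variable {k : Type u} [Field k]

lemma toLin_single {X : Variety k} (A : IOp X) (p : X.Pt) :
    A.toLin (Finsupp.single p 1) = (letI := A.fin; ∑ b : A.ι, Finsupp.single (A.r b p) (A.c b)) := by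
  let _ := A.fin
  unfold IOp.toLin
  rw [LinearMap.sum_apply]
  apply Finset.sum_congr rfl
  intro b _
  rw [LinearMap.smul_apply, Finsupp.lmapDomain_apply, Finsupp.mapDomain_single,
    Finsupp.smul_single, smul_eq_mul, mul_one]

lemma prod_toLin_single {X Y : Variety k} (A : IOp X) (B : IOp Y) (p : X.Pt) (q : Y.Pt) :
    (A.prod B).toLin (Finsupp.single (p, q) 1) =
      bx (A.toLin (Finsupp.single p 1)) (B.toLin (Finsupp.single q 1)) := by
  let _ := A.fin
  let _ := B.fin
  rw [toLin_single, toLin_single, toLin_single]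
  unfold bx
  rw [TensorProduct.sum_tmul, map_sum]
  simp only [TensorProduct.tmul_sum, map_sum, finsuppTensorFinsupp'_single_tmul_single]
  exact Fintype.sum_prod_type _

end box

section

variable {k E : Type u} [Field k] [IsAlgClosed k] [CharZero k] [Field E] [Algebra k E]
  (hE : IsFunctionField k E) (H : Subgroup (E ≃ₐ[k] E)) [Finite H] [Fintype H]

/-- The operator `x ↦ ∑_h ([h x] - [h o])`. -/
def Lop (o : Place k E) : IOp (curve hE) where
  ι := H × ULift.{u} Bool
  fin := inferInstance
  c := fun b => if b.2.down then -1 else 1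
  r := fun b P => act hE b.1.1 (if b.2.down then o else P)
  ind := by
    rintro ⟨h, b⟩ K _ _ hK c
    cases hb : b.down
    · refine ⟨actM hE h.1 c, fun v => ?_⟩
      rw [eval_actM]
      simp [hb]
    · refine ⟨Sum.inl (act hE h.1 o), fun v => ?_⟩
      simp [hb]

omit [IsAlgClosed k] [CharZero k] [Finite H] in
lemma Lop_single (o P : Place k E) : (Lop hE H o).toLin (Finsupp.single P 1) =
    (∑ h : H, Finsupp.single (act hE h.1 P) 1) - ∑ h : H, Finsupp.single (act hE h.1 o) 1 := by
  rw [toLin_single]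
  change ∑ b : H × ULift.{u} Bool, (Finsupp.single (act hE b.1.1 (if b.2.down then o else P))
    (if b.2.down then (-1 : ℤ) else 1) : Place k E →₀ ℤ) = _
  rw [Fintype.sum_prod_type, ← Finset.sum_sub_distrib]
  apply Finset.sum_congr rfl
  intro h _
  rw [← Equiv.sum_comp (Equiv.ulift.{u, 0} (α := Bool)).symm, Fintype.sum_bool]
  simp only [Equiv.ulift_symm_down, if_true, Bool.false_eq_true, if_false]
  rw [Finsupp.single_neg, sub_eq_add_neg, add_comm]

omit [IsAlgClosed k] [CharZero k] [Finite H] in
lemma sum_act_act (h₀ : H) (P : Place k E) :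
    ∑ h : H, (Finsupp.single (act hE h.1 (act hE h₀.1 P)) 1 : Place k E →₀ ℤ) =
      ∑ h : H, Finsupp.single (act hE h.1 P) 1 := by
  refine Fintype.sum_equiv (Equiv.mulLeft h₀) _ _ (fun h => ?_)
  rw [← act_mul]
  rfl

omit [IsAlgClosed k] [CharZero k] [Finite H] in
lemma Lop_act (o P : Place k E) (h : H) :
    (Lop hE H o).toLin (Finsupp.single (act hE h.1 P) 1) =
      (Lop hE H o).toLin (Finsupp.single P 1) := by
  rw [Lop_single, Lop_single, sum_act_act]

omit [IsAlgClosed k] [CharZero k] [Finite H] in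
lemma Lop_base (o : Place k E) :
    (Lop hE H o).toLin (Finsupp.single o 1) = 0 := by
  rw [Lop_single, sub_self]

theorem rel_gen (g : ℕ)
    (hg : ∀ D : Place k (IntermediateField.fixedField H) →₀ ℤ,
      (D.sum fun _ m => m) + 1 ≤
        (Module.finrank k (riemannRochSpace k (IntermediateField.fixedField H) D) : ℤ) + g)
    {J : Type*} [Fintype J] [DecidableEq J] (hJ : Fintype.card J = g + 1)
    (X : Variety k) (ins : (J → Place k E) → X.Pt)
    (hins : ∀ (K : Type u) [Field K] [Algebra k K] (hK : IsFunctionField k K)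
      (z : J → (curve hE).Mor K), ∃ c : X.Mor K, ∀ v, X.eval hK c v =
        ins (fun j => (curve hE).eval hK (z j) v))
    (O : IOp X) (o : Place k E)
    (hinv : ∀ (w : J → Place k E) (h : J → H),
      O.toLin (Finsupp.single (ins (fun j => act hE (h j).1 (w j))) 1) =
        O.toLin (Finsupp.single (ins w) 1))
    (hzero : ∀ w : J → Place k E, (∃ j, w j = o) → O.toLin (Finsupp.single (ins w) 1) = 0)
    (x : J → Place k E) :
    ∑ τ : Equiv.Perm J, cl X (O.toLin (Finsupp.single (ins (x ∘ τ)) 1)) = 0 := by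
  obtain ⟨y, ⟨j, σ, hj⟩, hcl⟩ := move_sum_lift hE H g hg hJ X ins hins x o
  have h1 : ∀ w : J → Place k E, O.toLin (avg hE H ins w) =
      (Fintype.card (J → H)) • O.toLin (Finsupp.single (ins w) 1) := by
    intro w
    unfold avg
    rw [map_sum, Finset.sum_congr rfl (fun h _ => hinv w h), Finset.sum_const, Finset.card_univ]
  have h2 := congrArg O.chow hcl
  rw [IOp.chow_cl, IOp.chow_cl, map_sum, map_sum, map_sum, map_sum] at h2
  simp only [h1, map_nsmul] at h2
  have h3 : ∀ τ : Equiv.Perm J, O.toLin (Finsupp.single (ins (y ∘ τ)) 1) = 0 := by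
    intro τ
    classical
    have e1 := hinv (Function.update (y ∘ τ) (τ⁻¹ j) o)
      (Function.update (fun _ => 1) (τ⁻¹ j) σ)
    have e2 : (fun i => act hE (Function.update (fun _ => (1 : H)) (τ⁻¹ j) σ i).1
        (Function.update (y ∘ τ) (τ⁻¹ j) o i)) = y ∘ τ := by
      funext i
      by_cases hi : i = τ⁻¹ j
      · subst hi
        simp [hj]
      · rw [update_of_ne hi, update_of_ne hi]
        exact act_one hE _
    rw [e2] at e1
    rw [e1]
    exact hzero _ ⟨τ⁻¹ j, by simp⟩
  simp only [h3, map_zero, smul_zero, Finset.sum_const_zero] at h2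
  rw [← Finset.smul_sum, ← Nat.cast_smul_eq_nsmul ℚ] at h2
  rcases smul_eq_zero.mp h2 with h | h
  · exfalso
    have : Fintype.card (J → H) ≠ 0 := Fintype.card_ne_zero
    exact this (by exact_mod_cast h)
  · exact h

end

section product

variable {k : Type u} [Field k] [IsAlgClosed k] [CharZero k]
  {F₁ F₂ : Type u} [Field F₁] [Algebra k F₁] [Field F₂] [Algebra k F₂]
  (h₁ : IsFunctionField k F₁) (h₂ : IsFunctionField k F₂) (n : ℕ)

/-- symmetrization in the first factor -/
theorem rel_left (H : Subgroup (F₁ ≃ₐ[k] F₁)) [Finite H] [Fintype H] (g : ℕ)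
    (hg : ∀ D : Place k (IntermediateField.fixedField H) →₀ ℤ,
      (D.sum fun _ m => m) + 1 ≤
        (Module.finrank k (riemannRochSpace k (IntermediateField.fixedField H) D) : ℤ) + g)
    (o : Place k F₁) (J : Finset (Fin n)) (hJ : J.card = g + 1)
    (A : Fin n → IOp (curve h₁)) (B : Fin n → IOp (curve h₂))
    (hA : ∀ i ∈ J, A i = Lop h₁ H o) (x : Fin n → Place k F₁) (q : Fin n → Place k F₂) :
    ∑ τ ∈ permOn J, cl (((curve h₁).prod (curve h₂)).pow n)
      (ext' (fun i => ((A i).prod (B i)).toLin (Finsupp.single (x (τ i), q i) 1))) = 0 := by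
  classical
  let ins : (J → Place k F₁) → (Fin n → Place k F₁ × Place k F₂) :=
    fun w i => (if h : i ∈ J then w ⟨i, h⟩ else x i, q i)
  let O : IOp (((curve h₁).prod (curve h₂)).pow n) := IOp.pow (fun i => (A i).prod (B i))
  have hO : ∀ p : Fin n → Place k F₁ × Place k F₂, O.toLin (Finsupp.single p 1) =
      ext' (fun i => bx ((A i).toLin (Finsupp.single (p i).1 1))
        ((B i).toLin (Finsupp.single (p i).2 1))) := by
    intro p
    rw [← ext'_single]
    simp only [O]
    rw [IOp.pow_ext']
    congr 1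
    funext i
    exact prod_toLin_single _ _ _ _
  have key := rel_gen h₁ H g hg (J := J) (by simpa using hJ) _ ins (by
    intro K _ _ hK z
    refine ⟨fun i => (if h : i ∈ J then z ⟨i, h⟩ else Sum.inl (x i), Sum.inl (q i)), ?_⟩
    intro v
    funext i
    simp only [ins]
    ext1
    · by_cases h : i ∈ J
      · simp [h]
      · simp [h]
    · rfl) O o (by
    intro w h
    rw [hO, hO]
    congr 1
    funext i
    by_cases hi : i ∈ J
    · simp only [ins, dif_pos hi]
      rw [hA i hi, Lop_act]
    · simp only [ins, dif_neg hi]) (by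
    rintro w ⟨j, hj⟩
    rw [hO, ← extM_apply]
    apply MultilinearMap.map_coord_zero _ j.1
    simp only [ins, dif_pos j.2]
    rw [hj, hA j.1 j.2, Lop_base, bx_zero_left]) (fun j => x j.1)
  rw [sum_permOn_ofSubtype, ← key]
  apply Finset.sum_congr rfl
  intro τ _
  rw [hO]
  congr 2
  funext i
  rw [prod_toLin_single]
  congr 3
  simp only [ins]
  by_cases h : i ∈ J
  · rw [dif_pos h, Equiv.Perm.ofSubtype_apply_of_mem τ h]
    rfl
  · rw [dif_neg h, Equiv.Perm.ofSubtype_apply_of_not_mem τ h]

/-- symmetrization in the second factor -/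
theorem rel_right (H : Subgroup (F₂ ≃ₐ[k] F₂)) [Finite H] [Fintype H] (g : ℕ)
    (hg : ∀ D : Place k (IntermediateField.fixedField H) →₀ ℤ,
      (D.sum fun _ m => m) + 1 ≤
        (Module.finrank k (riemannRochSpace k (IntermediateField.fixedField H) D) : ℤ) + g)
    (o : Place k F₂) (J : Finset (Fin n)) (hJ : J.card = g + 1)
    (A : Fin n → IOp (curve h₁)) (B : Fin n → IOp (curve h₂))
    (hB : ∀ i ∈ J, B i = Lop h₂ H o) (x : Fin n → Place k F₁) (q : Fin n → Place k F₂) :
    ∑ τ ∈ permOn J, cl (((curve h₁).prod (curve h₂)).pow n)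
      (ext' (fun i => ((A i).prod (B i)).toLin (Finsupp.single (x i, q (τ i)) 1))) = 0 := by
  classical
  let ins : (J → Place k F₂) → (Fin n → Place k F₁ × Place k F₂) :=
    fun w i => (x i, if h : i ∈ J then w ⟨i, h⟩ else q i)
  let O : IOp (((curve h₁).prod (curve h₂)).pow n) := IOp.pow (fun i => (A i).prod (B i))
  have hO : ∀ p : Fin n → Place k F₁ × Place k F₂, O.toLin (Finsupp.single p 1) =
      ext' (fun i => bx ((A i).toLin (Finsupp.single (p i).1 1))
        ((B i).toLin (Finsupp.single (p i).2 1))) := by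
    intro p
    rw [← ext'_single]
    simp only [O]
    rw [IOp.pow_ext']
    congr 1
    funext i
    exact prod_toLin_single _ _ _ _
  have key := rel_gen h₂ H g hg (J := J) (by simpa using hJ) _ ins (by
    intro K _ _ hK z
    refine ⟨fun i => (Sum.inl (x i), if h : i ∈ J then z ⟨i, h⟩ else Sum.inl (q i)), ?_⟩
    intro v
    funext i
    simp only [ins]
    ext1
    · rfl
    · by_cases h : i ∈ J
      · simp [h]
      · simp [h]) O o (by
    intro w h
    rw [hO, hO]
    congr 1
    funext i
    by_cases hi : i ∈ J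
    · simp only [ins, dif_pos hi]
      rw [hB i hi, Lop_act]
    · simp only [ins, dif_neg hi]) (by
    rintro w ⟨j, hj⟩
    rw [hO, ← extM_apply]
    apply MultilinearMap.map_coord_zero _ j.1
    simp only [ins, dif_pos j.2]
    rw [hj, hB j.1 j.2, Lop_base, bx_zero_right]) (fun j => q j.1)
  rw [sum_permOn_ofSubtype, ← key]
  apply Finset.sum_congr rfl
  intro τ _
  rw [hO]
  congr 2
  funext i
  rw [prod_toLin_single]
  congr 3
  simp only [ins]
  by_cases h : i ∈ J
  · rw [dif_pos h, Equiv.Perm.ofSubtype_apply_of_mem τ h]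
    rfl
  · rw [dif_neg h, Equiv.Perm.ofSubtype_apply_of_not_mem τ h]

end product

end VQ
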