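import Mathlib
import Pool.Agent.Helper94.VQ.Rel

/-!
# Alternating sums over a block of positions
-/

namespace VQ

open VC Function

universe u

theorem abs_block {ι : Type*} [Fintype ι] [DecidableEq ι] {X₁ X₂ M : Type*} [AddCommGroup M]
    [Module ℚ M] (Ψ : (ι → X₁) → (ι → X₂) → M) (g₁ g₂ : ℕ) (hn : g₁ * g₂ < Fintype.card ι)
    (hL : ∀ J : Finset ι, J.card = g₁ + 1 → ∀ (x : ι → X₁) (y : ι → X₂),
      ∑ τ ∈ permOn J, Ψ (fun i => x (τ i)) y = 0)
    (hR : ∀ J : Finset ι, J.card = g₂ + 1 → ∀ (x : ι → X₁) (y : ι → X₂),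
      ∑ τ ∈ permOn J, Ψ x (fun i => y (τ i)) = 0)
    (x : ι → X₁) (y : ι → X₂) :
    ∑ σ : Equiv.Perm ι, ((Equiv.Perm.sign σ : ℤˣ) : ℤ) •
      Ψ (fun i => x (σ i)) (fun i => y (σ i)) = 0 := by
  let f : Equiv.Perm ι → M := fun κ =>
    ∑ σ : Equiv.Perm ι, ((Equiv.Perm.sign σ : ℤˣ) : ℤ) •
      Ψ (fun i => x (σ i)) (fun i => y (κ (σ i)))
  have hf : f = 0 := by
    apply comb_zero g₁ g₂ hn f
    · -- antisymmetrizers
      intro κ J hJ
      have e1 : ∀ τ : Equiv.Perm ι, ((Equiv.Perm.sign τ : ℤˣ) : ℤ) • f (κ * τ) =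
          ∑ σ : Equiv.Perm ι, ((Equiv.Perm.sign σ : ℤˣ) : ℤ) •
            Ψ (fun i => x (τ⁻¹ (σ i))) (fun i => y (κ (σ i))) := by
        intro τ
        simp only [f]
        rw [Finset.smul_sum]
        refine Fintype.sum_equiv (Equiv.mulLeft τ) _ _ (fun σ => ?_)
        have e0 : ∀ i, τ⁻¹ (τ (σ i)) = σ i := fun i => τ.symm_apply_apply _
        simp only [Equiv.coe_mulLeft, Equiv.Perm.mul_apply, e0, smul_smul,
          Equiv.Perm.sign_mul, Units.val_mul]
      rw [Finset.sum_congr rfl (fun τ _ => e1 τ), Finset.sum_comm]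
      apply Finset.sum_eq_zero
      intro σ _
      rw [← Finset.smul_sum]
      have e2 : ∑ τ ∈ permOn J, Ψ (fun i => x (τ⁻¹ (σ i))) (fun i => y (κ (σ i))) =
          ∑ τ ∈ permOn J, Ψ (fun i => x (τ (σ i))) (fun i => y (κ (σ i))) := by
        refine Finset.sum_nbij' (fun τ => τ⁻¹) (fun τ => τ⁻¹) ?_ ?_ ?_ ?_ ?_
        · intro τ hτ
          rw [mem_permOn] at hτ ⊢
          intro i hi
          rw [Equiv.Perm.inv_eq_iff_eq, hτ i hi]
        · intro τ hτ
          rw [mem_permOn] at hτ ⊢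
          intro i hi
          rw [Equiv.Perm.inv_eq_iff_eq, hτ i hi]
        · intro τ _; simp
        · intro τ _; simp
        · intro τ _; rfl
      rw [e2, sum_permOn_conj J σ]
      have e3 := hL (J.map σ.symm.toEmbedding)
        (by rw [Finset.card_map, hJ]) (fun i => x (σ i)) (fun i => y (κ (σ i)))
      have e4 : ∀ τ : Equiv.Perm ι, (fun i => x ((σ * τ * σ⁻¹) (σ i))) =
          (fun i => (fun i => x (σ i)) (τ i)) := by
        intro τ
        funext i
        simp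
      simp only [e4]
      rw [e3, smul_zero]
    · -- symmetrizers
      intro κ J hJ
      simp only [f]
      rw [Finset.sum_comm]
      apply Finset.sum_eq_zero
      intro σ _
      rw [← Finset.smul_sum, sum_permOn_conj J σ]
      have e3 := hR (J.map σ.symm.toEmbedding)
        (by rw [Finset.card_map, hJ]) (fun i => x (σ i)) (fun i => y (κ (σ i)))
      have e4 : ∀ τ : Equiv.Perm ι, (fun i => y ((κ * (σ * τ * σ⁻¹)) (σ i))) =
          (fun i => (fun i => y (κ (σ i))) (τ i)) := by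
        intro τ
        funext i
        simp
      simp only [e4]
      rw [e3, smul_zero]
  have h0 := congrFun hf 1
  simp only [f, Pi.zero_apply, Equiv.Perm.one_apply] at h0
  exact h0

lemma sum_permOn_map {ι M : Type*} [Fintype ι] [DecidableEq ι] [AddCommMonoid M]
    (J : Finset ι) (J' : Finset J) (G : Equiv.Perm ι → M) :
    ∑ σ ∈ permOn (J'.map (Embedding.subtype _)), G σ =
      ∑ τ ∈ permOn J', G (Equiv.Perm.ofSubtype τ) := by
  symm
  refine Finset.sum_nbij (fun τ => Equiv.Perm.ofSubtype τ) ?_ ?_ ?_ ?_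
  · intro τ hτ
    rw [mem_permOn] at hτ ⊢
    intro i hi
    by_cases h : i ∈ J
    · rw [Equiv.Perm.ofSubtype_apply_of_mem τ h, hτ ⟨i, h⟩]
      intro hmem
      apply hi
      rw [Finset.mem_map]
      exact ⟨⟨i, h⟩, hmem, rfl⟩
    · exact Equiv.Perm.ofSubtype_apply_of_not_mem τ h
  · intro τ _ τ' _ h
    exact Equiv.Perm.ofSubtype_injective h
  · intro ρ hρ
    rw [Finset.mem_coe, mem_permOn] at hρ
    have hρ' : ∀ i, i ∉ J → ρ i = i := by
      intro i hi
      apply hρ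
      intro hmem
      rw [Finset.mem_map] at hmem
      obtain ⟨j, _, rfl⟩ := hmem
      exact hi j.2
    obtain ⟨τ, hτ⟩ := (Equiv.Perm.subtypeEquivSubtypePerm (fun i => i ∈ J)).surjective ⟨ρ, hρ'⟩
    have hτ' : Equiv.Perm.ofSubtype τ = ρ := congrArg Subtype.val hτ
    refine ⟨τ, ?_, hτ'⟩
    rw [Finset.mem_coe, mem_permOn]
    intro j hj
    apply Subtype.ext
    have h1 : ρ j.1 = j.1 := by
      apply hρ
      intro hmem
      rw [Finset.mem_map] at hmem
      obtain ⟨j', hj', h2⟩ := hmem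
      have : j' = j := Subtype.ext h2
      rw [this] at hj'
      exact hj hj'
    rw [← hτ', Equiv.Perm.ofSubtype_apply_coe] at h1
    exact h1
  · intro τ _
    rfl

section product

variable {k : Type u} [Field k] [IsAlgClosed k] [CharZero k]
  {F₁ F₂ : Type u} [Field F₁] [Algebra k F₁] [Field F₂] [Algebra k F₂]
  (h₁ : IsFunctionField k F₁) (h₂ : IsFunctionField k F₂) (n : ℕ)

theorem block_points (H₁ : Subgroup (F₁ ≃ₐ[k] F₁)) [Finite H₁] [Fintype H₁] (g₁ : ℕ)
    (hg₁ : ∀ D : Place k (IntermediateField.fixedField H₁) →₀ ℤ,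
      (D.sum fun _ m => m) + 1 ≤
        (Module.finrank k (riemannRochSpace k (IntermediateField.fixedField H₁) D) : ℤ) + g₁)
    (H₂ : Subgroup (F₂ ≃ₐ[k] F₂)) [Finite H₂] [Fintype H₂] (g₂ : ℕ)
    (hg₂ : ∀ D : Place k (IntermediateField.fixedField H₂) →₀ ℤ,
      (D.sum fun _ m => m) + 1 ≤
        (Module.finrank k (riemannRochSpace k (IntermediateField.fixedField H₂) D) : ℤ) + g₂)
    (o₁ : Place k F₁) (o₂ : Place k F₂) (J : Finset (Fin n)) (hJ : g₁ * g₂ < J.card)
    (A : Fin n → IOp (curve h₁)) (B : Fin n → IOp (curve h₂))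
    (hA : ∀ i ∈ J, A i = Lop h₁ H₁ o₁) (hB : ∀ i ∈ J, B i = Lop h₂ H₂ o₂)
    (p : Fin n → Place k F₁ × Place k F₂) :
    ∑ σ ∈ permOn J, ((Equiv.Perm.sign σ : ℤˣ) : ℤ) • cl (((curve h₁).prod (curve h₂)).pow n)
      (ext' (fun i => ((A i).prod (B i)).toLin (Finsupp.single (p (σ i)) 1))) = 0 := by
  classical
  let Ψ : (J → Place k F₁) → (J → Place k F₂) → ChowQ (((curve h₁).prod (curve h₂)).pow n) :=
    fun x y => cl (((curve h₁).prod (curve h₂)).pow n)
      (ext' (fun i => ((A i).prod (B i)).toLin (Finsupp.single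
        (if h : i ∈ J then x ⟨i, h⟩ else (p i).1, if h : i ∈ J then y ⟨i, h⟩ else (p i).2) 1)))
  have key := abs_block Ψ g₁ g₂ (by simpa using hJ) (by
    intro J' hJ' x y
    have h := rel_left h₁ h₂ n H₁ g₁ hg₁ o₁ (J'.map (Embedding.subtype _))
      (by rw [Finset.card_map, hJ']) A B (by
        intro i hi
        rw [Finset.mem_map] at hi
        obtain ⟨j, _, rfl⟩ := hi
        exact hA j.1 j.2) (fun i => if h : i ∈ J then x ⟨i, h⟩ else (p i).1)
      (fun i => if h : i ∈ J then y ⟨i, h⟩ else (p i).2)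
    rw [sum_permOn_map] at h
    rw [← h]
    apply Finset.sum_congr rfl
    intro τ _
    simp only [Ψ]
    congr 2
    funext i
    congr 3
    by_cases hi : i ∈ J
    · rw [dif_pos hi, Equiv.Perm.ofSubtype_apply_of_mem τ hi, dif_pos (τ ⟨i, hi⟩).2]
    · rw [dif_neg hi, Equiv.Perm.ofSubtype_apply_of_not_mem τ hi, dif_neg hi]) (by
    intro J' hJ' x y
    have h := rel_right h₁ h₂ n H₂ g₂ hg₂ o₂ (J'.map (Embedding.subtype _))
      (by rw [Finset.card_map, hJ']) A B (by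
        intro i hi
        rw [Finset.mem_map] at hi
        obtain ⟨j, _, rfl⟩ := hi
        exact hB j.1 j.2) (fun i => if h : i ∈ J then x ⟨i, h⟩ else (p i).1)
      (fun i => if h : i ∈ J then y ⟨i, h⟩ else (p i).2)
    rw [sum_permOn_map] at h
    rw [← h]
    apply Finset.sum_congr rfl
    intro τ _
    simp only [Ψ]
    congr 2
    funext i
    congr 3
    by_cases hi : i ∈ J
    · rw [dif_pos hi, Equiv.Perm.ofSubtype_apply_of_mem τ hi, dif_pos (τ ⟨i, hi⟩).2]
    · rw [dif_neg hi, Equiv.Perm.ofSubtype_apply_of_not_mem τ hi, dif_neg hi])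
    (fun j => (p j.1).1) (fun j => (p j.1).2)
  rw [sum_permOn_ofSubtype, ← key]
  apply Finset.sum_congr rfl
  intro τ _
  rw [Equiv.Perm.sign_ofSubtype]
  simp only [Ψ]
  congr 3
  funext i
  congr 2
  by_cases hi : i ∈ J
  · rw [dif_pos hi, dif_pos hi, Equiv.Perm.ofSubtype_apply_of_mem τ hi]
  · rw [dif_neg hi, dif_neg hi, Equiv.Perm.ofSubtype_apply_of_not_mem τ hi]

theorem block_cycles (H₁ : Subgroup (F₁ ≃ₐ[k] F₁)) [Finite H₁] [Fintype H₁] (g₁ : ℕ)
    (hg₁ : ∀ D : Place k (IntermediateField.fixedField H₁) →₀ ℤ,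
      (D.sum fun _ m => m) + 1 ≤
        (Module.finrank k (riemannRochSpace k (IntermediateField.fixedField H₁) D) : ℤ) + g₁)
    (H₂ : Subgroup (F₂ ≃ₐ[k] F₂)) [Finite H₂] [Fintype H₂] (g₂ : ℕ)
    (hg₂ : ∀ D : Place k (IntermediateField.fixedField H₂) →₀ ℤ,
      (D.sum fun _ m => m) + 1 ≤
        (Module.finrank k (riemannRochSpace k (IntermediateField.fixedField H₂) D) : ℤ) + g₂)
    (o₁ : Place k F₁) (o₂ : Place k F₂) (J : Finset (Fin n)) (hJ : g₁ * g₂ < J.card)
    (A : Fin n → IOp (curve h₁)) (B : Fin n → IOp (curve h₂))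
    (hA : ∀ i ∈ J, A i = Lop h₁ H₁ o₁) (hB : ∀ i ∈ J, B i = Lop h₂ H₂ o₂)
    (a : Fin n → ((curve h₁).prod (curve h₂)).Cycles) :
    ∑ σ ∈ permOn J, ((Equiv.Perm.sign σ : ℤˣ) : ℤ) • cl (((curve h₁).prod (curve h₂)).pow n)
      (ext' (fun i => ((A i).prod (B i)).toLin (a (σ i)))) = 0 := by
  classical
  let Θ : MultilinearMap ℤ (fun _ : Fin n => ((Place k F₁ × Place k F₂) →₀ ℤ))
      (ChowQ (((curve h₁).prod (curve h₂)).pow n)) :=
    ∑ σ ∈ permOn J, ((Equiv.Perm.sign σ : ℤˣ) : ℤ) •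
      ((cl (((curve h₁).prod (curve h₂)).pow n)).compMultilinearMap
        ((extM (Place k F₁ × Place k F₂) n).compLinearMap
          (fun i => ((A i).prod (B i)).toLin))).domDomCongr σ
  have hΘ : ∀ b : Fin n → ((Place k F₁ × Place k F₂) →₀ ℤ), Θ b =
      ∑ σ ∈ permOn J, ((Equiv.Perm.sign σ : ℤˣ) : ℤ) •
        cl (((curve h₁).prod (curve h₂)).pow n)
          (ext' (fun i => ((A i).prod (B i)).toLin (b (σ i)))) := by
    intro b
    simp only [Θ, sum_apply, smul_apply]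
    rfl
  have hΘ0 : Θ = 0 := by
    apply Module.Basis.ext_multilinear (fun _ => (Finsupp.basisSingleOne : Module.Basis
      (Place k F₁ × Place k F₂) ℤ _))
    intro p
    rw [hΘ, zero_apply]
    simp only [Finsupp.coe_basisSingleOne]
    exact block_points h₁ h₂ n H₁ g₁ hg₁ H₂ g₂ hg₂ o₁ o₂ J hJ A B hA hB p
  rw [← hΘ a, hΘ0, zero_apply]

end product

end VQ
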