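import Mathlib
import Pool.Agent.Helper9.NS
import Pool.Agent.Helper94.VQ.Rel

/-!
# Characters of elementary abelian 2-groups
-/

namespace VQ

open VC Function

universe u

section char

variable {V : Type u} [Group V] [Finite V]

instance finite_char : Finite (V →* ℤˣ) := by
  have : Finite ℤˣ := inferInstance
  exact Finite.of_injective (fun χ : V →* ℤˣ => (χ : V → ℤˣ)) DFunLike.coe_injective

theorem exists_char (hV : ∀ σ : V, σ * σ = 1) (σ : V) (hσ : σ ≠ 1) :
    ∃ χ : V →* ℤˣ, χ σ ≠ 1 := by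
  have hcomm : ∀ a b : V, a * b = b * a := by
    intro a b
    have h1 : a * (b * a) = b := by
      have h2 := hV (a * b)
      calc a * (b * a) = (a * b * (a * b)) * b⁻¹ := by group
        _ = b := by
          rw [h2, one_mul]
          exact inv_eq_of_mul_eq_one_left (hV b)
    calc a * b = a * (a * (b * a)) := by rw [h1]
      _ = (a * a) * (b * a) := by group
      _ = b * a := by rw [hV, one_mul]
  let _ : CommGroup V := { (inferInstance : Group V) with mul_comm := hcomm }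
  have h2 : HasEnoughRootsOfUnity ℤ 2 := by
    refine ⟨⟨-1, ?_⟩, inferInstance⟩
    exact IsPrimitiveRoot.neg_one 0 (by norm_num)
  have hexp : Monoid.exponent V ∣ 2 := by
    apply Monoid.exponent_dvd_of_forall_pow_eq_one
    intro g
    rw [pow_two, hV]
  have h3 : HasEnoughRootsOfUnity ℤ (Monoid.exponent V) := HasEnoughRootsOfUnity.of_dvd ℤ hexp
  exact CommGroup.exists_apply_ne_one_of_hasEnoughRootsOfUnity V ℤ hσ

theorem sum_char [Fintype (V →* ℤˣ)] (hV : ∀ σ : V, σ * σ = 1) [DecidableEq V] (σ : V) :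
    ∑ χ : V →* ℤˣ, ((χ σ : ℤˣ) : ℤ) = if σ = 1 then (Fintype.card (V →* ℤˣ) : ℤ) else 0 := by
  by_cases h : σ = 1
  · rw [if_pos h, h]
    simp
  · rw [if_neg h]
    obtain ⟨χ₀, h₀⟩ := exists_char hV σ h
    have h1 : ∑ χ : V →* ℤˣ, ((χ σ : ℤˣ) : ℤ) = ∑ χ : V →* ℤˣ, (((χ₀ * χ) σ : ℤˣ) : ℤ) :=
      (Fintype.sum_equiv (Equiv.mulLeft χ₀) _ _ (fun χ => rfl)).symm
    have h2 : ((χ₀ σ : ℤˣ) : ℤ) = -1 := by
      rcases Int.units_eq_one_or (χ₀ σ) with h | h
      · exact absurd h h₀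
      · rw [h]; rfl
    simp only [MonoidHom.mul_apply, Units.val_mul, h2, neg_mul, one_mul,
      Finset.sum_neg_distrib] at h1
    omega

end char

section ops

variable {k E : Type u} [Field k] [Field E] [Algebra k E]
  (hE : IsFunctionField k E) (V : Subgroup (E ≃ₐ[k] E)) [Fintype V]

/-- The operator `x ↦ ∑_g χ(g) [g x]`. -/
def eop (χ : V →* ℤˣ) : IOp (curve hE) where
  ι := V
  fin := inferInstance
  c := fun g => ((χ g : ℤˣ) : ℤ)
  r := fun g P => act hE g.1 P
  ind := by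
    intro g K _ _ hK c
    exact ⟨actM hE g.1 c, fun v => eval_actM hE hK g.1 c v⟩

/-- The operator `x ↦ ∑_g χ(g) ([g x] - [g o])`. -/
def Eop (o : Place k E) (χ : V →* ℤˣ) : IOp (curve hE) where
  ι := V × ULift.{u} Bool
  fin := inferInstance
  c := fun b => ((χ b.1 : ℤˣ) : ℤ) * (if b.2.down then -1 else 1)
  r := fun b P => act hE b.1.1 (if b.2.down then o else P)
  ind := by
    rintro ⟨h, b⟩ K _ _ hK c
    cases hb : b.down
    · refine ⟨actM hE h.1 c, fun v => ?_⟩
      rw [eval_actM]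
      simp [hb]
    · refine ⟨Sum.inl (act hE h.1 o), fun v => ?_⟩
      simp [hb]

lemma eop_single (χ : V →* ℤˣ) (P : Place k E) : (eop hE V χ).toLin (Finsupp.single P 1) =
    ∑ g : V, ((χ g : ℤˣ) : ℤ) • Finsupp.single (act hE g.1 P) 1 := by
  rw [toLin_single]
  apply Finset.sum_congr rfl
  intro g _
  rw [Finsupp.smul_single, smul_eq_mul, mul_one]
  rfl

lemma Eop_single (o P : Place k E) (χ : V →* ℤˣ) :
    (Eop hE V o χ).toLin (Finsupp.single P 1) =
    (eop hE V χ).toLin (Finsupp.single P 1 - Finsupp.single o 1) := by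
  rw [map_sub, eop_single, eop_single, toLin_single]
  change ∑ b : V × ULift.{u} Bool, (Finsupp.single (act hE b.1.1 (if b.2.down then o else P))
    (((χ b.1 : ℤˣ) : ℤ) * (if b.2.down then (-1 : ℤ) else 1)) : Place k E →₀ ℤ) = _
  rw [Fintype.sum_prod_type, ← Finset.sum_sub_distrib]
  apply Finset.sum_congr rfl
  intro h _
  rw [← Equiv.sum_comp (Equiv.ulift.{u, 0} (α := Bool)).symm, Fintype.sum_bool]
  simp only [Equiv.ulift_symm_down, if_true, Bool.false_eq_true, if_false]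
  rw [Finsupp.smul_single, Finsupp.smul_single, smul_eq_mul, mul_one, mul_neg, mul_one,
    Finsupp.single_neg, sub_eq_add_neg, add_comm]

/-- the kernel of a character -/
abbrev kerS (χ : V →* ℤˣ) : Subgroup (E ≃ₐ[k] E) := χ.ker.map V.subtype

lemma kerS_le (χ : V →* ℤˣ) : kerS V χ ≤ V := by
  rintro x ⟨y, _, rfl⟩
  exact y.2

instance finite_kerS (χ : V →* ℤˣ) : Finite (kerS V χ) :=
  Finite.of_injective (Subgroup.inclusion (kerS_le V χ)) (Subgroup.inclusion_injective _)

lemma Lop_Eop (o P : Place k E) (χ : V →* ℤˣ) [Fintype (kerS V χ)] :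
    (Lop hE (kerS V χ) o).toLin ((Eop hE V o χ).toLin (Finsupp.single P 1)) =
      (Fintype.card (kerS V χ)) • (Eop hE V o χ).toLin (Finsupp.single P 1) := by
  rw [Eop_single, map_sub, eop_single, eop_single, ← Finset.sum_sub_distrib, map_sum]
  have h1 : ∀ g : V, (Lop hE (kerS V χ) o).toLin
      (((χ g : ℤˣ) : ℤ) • Finsupp.single (act hE g.1 P) 1 -
        ((χ g : ℤˣ) : ℤ) • Finsupp.single (act hE g.1 o) 1) =
      ∑ h : kerS V χ, (((χ g : ℤˣ) : ℤ) • Finsupp.single (act hE h.1 (act hE g.1 P)) 1 -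
        ((χ g : ℤˣ) : ℤ) • Finsupp.single (act hE h.1 (act hE g.1 o)) 1) := by
    intro g
    rw [map_sub, map_smul, map_smul, Lop_single, Lop_single, Finset.sum_sub_distrib,
      ← Finset.smul_sum, ← Finset.smul_sum, smul_sub, smul_sub]
    abel
  rw [Finset.sum_congr rfl (fun g _ => h1 g), Finset.sum_comm]
  have h2 : ∀ h : kerS V χ, ∑ g : V,
      ((((χ g : ℤˣ) : ℤ) • Finsupp.single (act hE h.1 (act hE g.1 P)) 1 -
        ((χ g : ℤˣ) : ℤ) • Finsupp.single (act hE h.1 (act hE g.1 o)) 1) : Place k E →₀ ℤ) =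
      ∑ g : V, (((χ g : ℤˣ) : ℤ) • Finsupp.single (act hE g.1 P) 1 -
        ((χ g : ℤˣ) : ℤ) • Finsupp.single (act hE g.1 o) 1) := by
    intro h
    obtain ⟨h', hh', hh⟩ := h.2
    refine Fintype.sum_equiv (Equiv.mulRight h') _ _ (fun g => ?_)
    have e1 : χ (g * h') = χ g := by
      rw [map_mul, MonoidHom.mem_ker.mp hh', mul_one]
    have e2 : ∀ Q, act hE (g * h').1 Q = act hE h.1 (act hE g.1 Q) := by
      intro Q
      rw [← act_mul, ← hh]
      rfl
    rw [Equiv.coe_mulRight, e1, e2, e2]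
  rw [Finset.sum_congr rfl (fun h _ => h2 h), Finset.sum_const, Finset.card_univ]

end ops

end VQ
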