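import Mathlib
import Pool.Agent.Helper9.NS
import Pool.Agent.Helper26.VC.Cycles
import Pool.Agent.Helper94.VQ.Act

/-!
# Quotients of a product of two curves by a finite group
-/

namespace VQ

open VC Function

universe u

section defs

variable {k : Type u} [Field k]
  {F₁ F₂ : Type u} [Field F₁] [Algebra k F₁] [Field F₂] [Algebra k F₂]
  (h₁ : IsFunctionField k F₁) (h₂ : IsFunctionField k F₂)
  (V₁ : Subgroup (F₁ ≃ₐ[k] F₁)) (V₂ : Subgroup (F₂ ≃ₐ[k] F₂)) (G : Subgroup (V₁ × V₂))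

/-- The action of a pair of automorphisms on the closed points of the product of two curves. -/
def act2 (s : V₁ × V₂) (p : Place k F₁ × Place k F₂) : Place k F₁ × Place k F₂ :=
  (act h₁ s.1.1 p.1, act h₂ s.2.1 p.2)

lemma act2_one (p : Place k F₁ × Place k F₂) : act2 h₁ h₂ V₁ V₂ 1 p = p :=
  Prod.ext (act_one h₁ p.1) (act_one h₂ p.2)

lemma act2_mul (s t : V₁ × V₂) (p : Place k F₁ × Place k F₂) :
    act2 h₁ h₂ V₁ V₂ (s * t) p = act2 h₁ h₂ V₁ V₂ t (act2 h₁ h₂ V₁ V₂ s p) :=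
  Prod.ext (act_mul h₁ s.1.1 t.1.1 p.1) (act_mul h₂ s.2.1 t.2.1 p.2)

/-- Two closed points of `C₁ × C₂` are equivalent if they lie in the same orbit of `G`. -/
def orbitSetoid : Setoid (Place k F₁ × Place k F₂) where
  r p q := ∃ s ∈ G, q = act2 h₁ h₂ V₁ V₂ s p
  iseqv := by
    refine ⟨fun p => ⟨1, G.one_mem, (act2_one h₁ h₂ V₁ V₂ p).symm⟩, ?_, ?_⟩
    · rintro p q ⟨s, hs, rfl⟩
      refine ⟨s⁻¹, G.inv_mem hs, ?_⟩
      rw [← act2_mul, mul_inv_cancel, act2_one]
    · rintro p q r ⟨s, hs, rfl⟩ ⟨t, ht, rfl⟩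
      exact ⟨s * t, G.mul_mem hs ht, (act2_mul h₁ h₂ V₁ V₂ s t p).symm⟩

/-- The quotient `(C₁ × C₂) / G`. Its closed points are the orbits of `G` on the closed points of
`C₁ × C₂`; of the morphisms from smooth projective curves we only keep those which lift to
`C₁ × C₂` (the other ones could only enlarge the group of zero-cycles rationally equivalent to
zero). -/
abbrev quotSurface : Variety k where
  Pt := Quotient (orbitSetoid h₁ h₂ V₁ V₂ G)
  Mor K _ _ := ((curve h₁).prod (curve h₂)).Mor K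
  eval hK c v := Quotient.mk _ (((curve h₁).prod (curve h₂)).eval hK c v)

/-- The pullback to `C₁ × C₂` of a closed point of the quotient: the sum of `[s p]`, `s ∈ G`. -/
noncomputable def pullPt (q : Quotient (orbitSetoid h₁ h₂ V₁ V₂ G)) :
    (Place k F₁ × Place k F₂) →₀ ℤ :=
  Quotient.lift (fun p => ∑ᶠ s : G, Finsupp.single (act2 h₁ h₂ V₁ V₂ s.1 p) (1 : ℤ)) (by
    rintro p q ⟨s, hs, rfl⟩
    symm
    refine finsum_eq_of_bijective (fun t : G => (⟨s, hs⟩ : G) * t)
      (Group.mulLeft_bijective (⟨s, hs⟩ : G)) (fun t => ?_)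
    rw [← act2_mul]
    rfl) q

/-- The pullback of a zero-cycle on the quotient to `C₁ × C₂`. -/
noncomputable def pullCycle (a : (quotSurface h₁ h₂ V₁ V₂ G).Cycles) :
    ((curve h₁).prod (curve h₂)).Cycles :=
  a.sum fun q m => m • pullPt h₁ h₂ V₁ V₂ G q

end defs

end VQ
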