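import Mathlib
import Pool.Agent.Helper9.NS
import Pool.Agent.Helper26.VC.Final
import Pool.Agent.Helper94.VQ.Block
import Pool.Agent.Helper94.VQ.Char
import Pool.Agent.Helper94.VQ.Quot

/-!
# The alternating sum for cycles invariant under a group of pairs of automorphisms
-/

namespace VQ

open VC Function
open scoped TensorProduct

universe u

section bx

variable {α β : Type u}

lemma bx_add_left (a a' : α →₀ ℤ) (b : β →₀ ℤ) : bx (a + a') b = bx a b + bx a' b := by
  unfold bx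
  rw [TensorProduct.add_tmul, map_add]

lemma bx_add_right (a : α →₀ ℤ) (b b' : β →₀ ℤ) : bx a (b + b') = bx a b + bx a b' := by
  unfold bx
  rw [TensorProduct.tmul_add, map_add]

lemma bx_sub_left (a a' : α →₀ ℤ) (b : β →₀ ℤ) : bx (a - a') b = bx a b - bx a' b := by
  unfold bx
  rw [TensorProduct.sub_tmul, map_sub]

lemma bx_sub_right (a : α →₀ ℤ) (b b' : β →₀ ℤ) : bx a (b - b') = bx a b - bx a b' := by
  unfold bx
  rw [TensorProduct.tmul_sub, map_sub]

lemma bx_smul_left (m : ℤ) (a : α →₀ ℤ) (b : β →₀ ℤ) : bx (m • a) b = m • bx a b := by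
  unfold bx
  rw [← TensorProduct.smul_tmul', map_smul]

lemma bx_smul_right (m : ℤ) (a : α →₀ ℤ) (b : β →₀ ℤ) : bx a (m • b) = m • bx a b := by
  unfold bx
  rw [TensorProduct.tmul_smul, map_smul]

lemma bx_sum_left {ι : Type*} (s : Finset ι) (f : ι → (α →₀ ℤ)) (b : β →₀ ℤ) :
    bx (∑ i ∈ s, f i) b = ∑ i ∈ s, bx (f i) b := by
  unfold bx
  rw [TensorProduct.sum_tmul, map_sum]

lemma bx_sum_right {ι : Type*} (s : Finset ι) (a : α →₀ ℤ) (f : ι → (β →₀ ℤ)) :
    bx a (∑ i ∈ s, f i) = ∑ i ∈ s, bx a (f i) := by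
  unfold bx
  rw [TensorProduct.tmul_sum, map_sum]

variable {k : Type u} [Field k]

lemma prod_toLin_bx {X Y : Variety k} (A : IOp X) (B : IOp Y) (a : X.Cycles) (b : Y.Cycles) :
    (A.prod B).toLin (bx a b) = bx (A.toLin a) (B.toLin b) := by
  induction a using Finsupp.induction_linear with
  | zero => rw [bx_zero_left, map_zero, map_zero, bx_zero_left]
  | add a a' ha ha' => rw [bx_add_left, map_add, map_add, bx_add_left, ha, ha']
  | single x m =>
    induction b using Finsupp.induction_linear with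
    | zero => rw [bx_zero_right, map_zero, map_zero, bx_zero_right]
    | add b b' hb hb' => rw [bx_add_right, map_add, map_add, bx_add_right, hb, hb']
    | single y l =>
      have e1 : (Finsupp.single x m : X.Cycles) = m • Finsupp.single x 1 := by
        rw [Finsupp.smul_single, smul_eq_mul, mul_one]
      have e2 : (Finsupp.single y l : Y.Cycles) = l • Finsupp.single y 1 := by
        rw [Finsupp.smul_single, smul_eq_mul, mul_one]
      rw [e1, e2, bx_smul_left, bx_smul_right, map_smul, map_smul, map_smul, map_smul,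
        bx_smul_left, bx_smul_right, bx_single, one_mul]
      congr 2
      exact prod_toLin_single A B x y

end bx

section

variable {k : Type u} [Field k]
  {F₁ F₂ : Type u} [Field F₁] [Algebra k F₁] [Field F₂] [Algebra k F₂]
  (h₁ : IsFunctionField k F₁) (h₂ : IsFunctionField k F₂)
  (V₁ : Subgroup (F₁ ≃ₐ[k] F₁)) (V₂ : Subgroup (F₂ ≃ₐ[k] F₂)) [Fintype V₁] [Fintype V₂]

lemma sum_eop {E : Type u} [Field E] [Algebra k E] (hE : IsFunctionField k E)
    (V : Subgroup (E ≃ₐ[k] E)) [Fintype V] [Fintype (V →* ℤˣ)] (hV : ∀ σ : V, σ * σ = 1)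
    (P : Place k E) :
    ∑ χ : V →* ℤˣ, (eop hE V χ).toLin (Finsupp.single P 1) =
      (Fintype.card (V →* ℤˣ) : ℤ) • Finsupp.single P 1 := by
  classical
  rw [Finset.sum_congr rfl (fun χ _ => eop_single hE V χ P), Finset.sum_comm]
  simp only [← Finset.sum_smul, sum_char hV]
  rw [Finset.sum_eq_single 1]
  · rw [if_pos rfl]
    have h1 : act hE (1 : V).1 P = P := act_one hE P
    rw [h1]
  · intro g _ hg
    rw [if_neg hg, zero_smul]
  · intro h
    exact absurd (Finset.mem_univ _) h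

lemma sum_eop2 [Fintype (V₁ →* ℤˣ)] [Fintype (V₂ →* ℤˣ)] (e₁ : ∀ σ : V₁, σ * σ = 1)
    (e₂ : ∀ σ : V₂, σ * σ = 1) (z : ((curve h₁).prod (curve h₂)).Cycles) :
    ∑ χ : (V₁ →* ℤˣ) × (V₂ →* ℤˣ), ((eop h₁ V₁ χ.1).prod (eop h₂ V₂ χ.2)).toLin z =
      ((Fintype.card (V₁ →* ℤˣ) : ℤ) * (Fintype.card (V₂ →* ℤˣ) : ℤ)) • z := by
  have h : (∑ χ : (V₁ →* ℤˣ) × (V₂ →* ℤˣ), ((eop h₁ V₁ χ.1).prod (eop h₂ V₂ χ.2)).toLin) =
      ((Fintype.card (V₁ →* ℤˣ) : ℤ) * (Fintype.card (V₂ →* ℤˣ) : ℤ)) • LinearMap.id := by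
    apply Finsupp.lhom_ext'
    rintro ⟨p, q⟩
    apply LinearMap.ext_ring
    rw [LinearMap.comp_apply, LinearMap.comp_apply, LinearMap.sum_apply, LinearMap.smul_apply,
      Finsupp.lsingle_apply, LinearMap.id_apply]
    rw [Finset.sum_congr rfl (fun χ _ => prod_toLin_single (eop h₁ V₁ χ.1) (eop h₂ V₂ χ.2) p q),
      Fintype.sum_prod_type]
    have h2 : ∀ x : V₁ →* ℤˣ, ∑ y : V₂ →* ℤˣ, bx ((eop h₁ V₁ x).toLin (Finsupp.single p 1))
        ((eop h₂ V₂ y).toLin (Finsupp.single q 1)) =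
        bx ((eop h₁ V₁ x).toLin (Finsupp.single p 1))
          (∑ y : V₂ →* ℤˣ, (eop h₂ V₂ y).toLin (Finsupp.single q 1)) :=
      fun x => (bx_sum_right _ _ _).symm
    rw [Finset.sum_congr rfl (fun x _ => h2 x)]
    have h3 := bx_sum_left (Finset.univ : Finset (V₁ →* ℤˣ))
      (fun x => (eop h₁ V₁ x).toLin (Finsupp.single p 1))
      (∑ y : V₂ →* ℤˣ, (eop h₂ V₂ y).toLin (Finsupp.single q 1))
    refine h3.symm.trans ?_
    rw [sum_eop h₁ V₁ e₁, sum_eop h₂ V₂ e₂, bx_smul_left, bx_smul_right, bx_single,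
      smul_smul, one_mul]
  have h' := congrArg (fun f => f z) h
  rw [LinearMap.sum_apply, LinearMap.smul_apply, LinearMap.id_apply] at h'
  exact h'

lemma eop_TS (o : Place k F₁ × Place k F₂) (χ₁ : V₁ →* ℤˣ) (χ₂ : V₂ →* ℤˣ)
    (z : ((curve h₁).prod (curve h₂)).Cycles) :
    ((eop h₁ V₁ χ₁).prod (eop h₂ V₂ χ₂)).toLin (TS o z) =
      ((Eop h₁ V₁ o.1 χ₁).prod (Eop h₂ V₂ o.2 χ₂)).toLin z := by
  have h : ((eop h₁ V₁ χ₁).prod (eop h₂ V₂ χ₂)).toLin ∘ₗ TS o =
      ((Eop h₁ V₁ o.1 χ₁).prod (Eop h₂ V₂ o.2 χ₂)).toLin := by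
    apply Finsupp.lhom_ext'
    rintro ⟨p, q⟩
    apply LinearMap.ext_ring
    rw [LinearMap.comp_apply, LinearMap.comp_apply, LinearMap.comp_apply, Finsupp.lsingle_apply,
      prod_toLin_single, Eop_single, Eop_single, ← prod_toLin_bx]
    congr 1
    rw [TS_apply]
    simp only [Finsupp.mapDomain_single, bx_sub_left, bx_sub_right, bx_single, one_mul]
    abel
  exact congrArg (fun f => f z) h

lemma LopEop (o : Place k F₁ × Place k F₂) (χ₁ : V₁ →* ℤˣ) (χ₂ : V₂ →* ℤˣ)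
    [Fintype (kerS V₁ χ₁)] [Fintype (kerS V₂ χ₂)]
    (z : ((curve h₁).prod (curve h₂)).Cycles) :
    ((Lop h₁ (kerS V₁ χ₁) o.1).prod (Lop h₂ (kerS V₂ χ₂) o.2)).toLin
      (((Eop h₁ V₁ o.1 χ₁).prod (Eop h₂ V₂ o.2 χ₂)).toLin z) =
      ((Fintype.card (kerS V₁ χ₁) : ℤ) * (Fintype.card (kerS V₂ χ₂) : ℤ)) •
      ((Eop h₁ V₁ o.1 χ₁).prod (Eop h₂ V₂ o.2 χ₂)).toLin z := by
  have h : ((Lop h₁ (kerS V₁ χ₁) o.1).prod (Lop h₂ (kerS V₂ χ₂) o.2)).toLin ∘ₗ
      ((Eop h₁ V₁ o.1 χ₁).prod (Eop h₂ V₂ o.2 χ₂)).toLin =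
      ((Fintype.card (kerS V₁ χ₁) : ℤ) * (Fintype.card (kerS V₂ χ₂) : ℤ)) •
      ((Eop h₁ V₁ o.1 χ₁).prod (Eop h₂ V₂ o.2 χ₂)).toLin := by
    apply Finsupp.lhom_ext'
    rintro ⟨p, q⟩
    apply LinearMap.ext_ring
    rw [LinearMap.comp_apply, LinearMap.comp_apply, LinearMap.comp_apply, LinearMap.smul_apply,
      Finsupp.lsingle_apply, prod_toLin_single, prod_toLin_bx, Lop_Eop, Lop_Eop,
      ← natCast_zsmul, ← natCast_zsmul, bx_smul_left, bx_smul_right, smul_smul]
  exact congrArg (fun f => f z) h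

lemma eop_act {E : Type u} [Field E] [Algebra k E] (hE : IsFunctionField k E)
    (V : Subgroup (E ≃ₐ[k] E)) [Fintype V] (χ : V →* ℤˣ) (s : V) (P : Place k E) :
    (eop hE V χ).toLin (Finsupp.single (act hE s.1 P) 1) =
      ((χ s : ℤˣ) : ℤ) • (eop hE V χ).toLin (Finsupp.single P 1) := by
  rw [eop_single, eop_single, Finset.smul_sum]
  refine Fintype.sum_equiv (Equiv.mulLeft s) _ _ (fun g => ?_)
  rw [Equiv.coe_mulLeft, smul_smul, map_mul, Units.val_mul, ← mul_assoc]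
  have h1 : ((χ s : ℤˣ) : ℤ) * ((χ s : ℤˣ) : ℤ) = 1 := by
    rcases Int.units_eq_one_or (χ s) with h | h <;> rw [h] <;> rfl
  rw [h1, one_mul, ← act_mul]
  rfl

lemma eop_invariant (s : V₁ × V₂) (χ₁ : V₁ →* ℤˣ) (χ₂ : V₂ →* ℤˣ)
    (hs : χ₁ s.1 * χ₂ s.2 ≠ 1) (z : ((curve h₁).prod (curve h₂)).Cycles)
    (hz : Finsupp.mapDomain (act2 h₁ h₂ V₁ V₂ s) z = z) :
    ((eop h₁ V₁ χ₁).prod (eop h₂ V₂ χ₂)).toLin z = 0 := by
  have hs' : ((χ₁ s.1 : ℤˣ) : ℤ) * ((χ₂ s.2 : ℤˣ) : ℤ) = -1 := by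
    rw [← Units.val_mul]
    rcases Int.units_eq_one_or (χ₁ s.1 * χ₂ s.2) with h | h
    · exact absurd h hs
    · rw [h]; rfl
  have h : ((eop h₁ V₁ χ₁).prod (eop h₂ V₂ χ₂)).toLin ∘ₗ
      Finsupp.lmapDomain ℤ ℤ (act2 h₁ h₂ V₁ V₂ s) =
      (-1 : ℤ) • ((eop h₁ V₁ χ₁).prod (eop h₂ V₂ χ₂)).toLin := by
    apply Finsupp.lhom_ext'
    rintro ⟨p, q⟩
    apply LinearMap.ext_ring
    rw [LinearMap.comp_apply, LinearMap.comp_apply, LinearMap.comp_apply, LinearMap.smul_apply,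
      Finsupp.lsingle_apply, Finsupp.lmapDomain_apply, Finsupp.mapDomain_single]
    have e : act2 h₁ h₂ V₁ V₂ s (p, q) = (act h₁ s.1.1 p, act h₂ s.2.1 q) := rfl
    rw [e, prod_toLin_single, prod_toLin_single, eop_act, eop_act, bx_smul_left, bx_smul_right,
      smul_smul, hs']
  have h' := congrArg (fun f => f z) h
  rw [LinearMap.comp_apply, LinearMap.smul_apply, Finsupp.lmapDomain_apply, hz] at h'
  ext x
  have h2 := congrArg (fun f => f x) h'
  simp only [Finsupp.smul_apply, smul_eq_mul] at h2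
  rw [Finsupp.zero_apply]
  omega

end

section main

variable {k : Type u} [Field k] [IsAlgClosed k] [CharZero k]
  {F₁ F₂ : Type u} [Field F₁] [Algebra k F₁] [Field F₂] [Algebra k F₂]
  (h₁ : IsFunctionField k F₁) (h₂ : IsFunctionField k F₂)
  (V₁ : Subgroup (F₁ ≃ₐ[k] F₁)) (V₂ : Subgroup (F₂ ≃ₐ[k] F₂)) [Finite V₁] [Finite V₂]
  (G : Subgroup (V₁ × V₂)) (n : ℕ)

/-- The pairs of characters of `V₁` and `V₂` whose product is trivial on `G`. -/
def Perp (χ : (V₁ →* ℤˣ) × (V₂ →* ℤˣ)) : Prop := ∀ s ∈ G, χ.1 s.1 * χ.2 s.2 = 1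

theorem alternating_invariant (e₁ : ∀ σ : V₁, σ * σ = 1) (e₂ : ∀ σ : V₂, σ * σ = 1)
    (g₁ : (V₁ →* ℤˣ) → ℕ) (g₂ : (V₂ →* ℤˣ) → ℕ)
    (hg₁ : ∀ χ, ∀ D : Place k (IntermediateField.fixedField (kerS V₁ χ)) →₀ ℤ,
      (D.sum fun _ m => m) + 1 ≤
        (Module.finrank k (riemannRochSpace k (IntermediateField.fixedField (kerS V₁ χ)) D) : ℤ)
          + g₁ χ)
    (hg₂ : ∀ χ, ∀ D : Place k (IntermediateField.fixedField (kerS V₂ χ)) →₀ ℤ,
      (D.sum fun _ m => m) + 1 ≤
        (Module.finrank k (riemannRochSpace k (IntermediateField.fixedField (kerS V₂ χ)) D) : ℤ)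
          + g₂ χ)
    (hn : ∑ᶠ χ : {χ : (V₁ →* ℤˣ) × (V₂ →* ℤˣ) // Perp V₁ V₂ G χ}, g₁ χ.1.1 * g₂ χ.1.2 < n)
    (b : Fin n → ((curve h₁).prod (curve h₂)).Cycles)
    (hb : ∀ i, AlbaneseTrivial (curve h₁) (curve h₂) (b i))
    (hinv : ∀ i, ∀ s ∈ G, Finsupp.mapDomain (act2 h₁ h₂ V₁ V₂ s) (b i) = b i) :
    cl (((curve h₁).prod (curve h₂)).pow n) (∑ σ : Equiv.Perm (Fin n),
      ((Equiv.Perm.sign σ : ℤˣ) : ℤ) • ext' (fun i => b (σ i))) = 0 := by
  classical
  have : Fintype V₁ := Fintype.ofFinite V₁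
  have : Fintype V₂ := Fintype.ofFinite V₂
  have : Fintype (V₁ →* ℤˣ) := Fintype.ofFinite _
  have : Fintype (V₂ →* ℤˣ) := Fintype.ofFinite _
  have : ∀ χ, Fintype (kerS V₁ χ) := fun χ => Fintype.ofFinite _
  have : ∀ χ, Fintype (kerS V₂ χ) := fun χ => Fintype.ofFinite _
  obtain ⟨t₁, ht₁, _⟩ := id h₁
  obtain ⟨t₂, ht₂, _⟩ := id h₂
  obtain ⟨o₁, _⟩ := exists_place h₁ ht₁
  obtain ⟨o₂, _⟩ := exists_place h₂ ht₂
  let o : Place k F₁ × Place k F₂ := (o₁, o₂)
  let X := ((curve h₁).prod (curve h₂))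
  let e : (V₁ →* ℤˣ) × (V₂ →* ℤˣ) → IOp X := fun χ => (eop h₁ V₁ χ.1).prod (eop h₂ V₂ χ.2)
  let E : (V₁ →* ℤˣ) × (V₂ →* ℤˣ) → IOp X := fun χ =>
    (Eop h₁ V₁ o.1 χ.1).prod (Eop h₂ V₂ o.2 χ.2)
  have hconst : ∀ (K : Type u) [Field K] [Algebra k K]
      (hK : IsFunctionField k K) (p : X.Pt), ∃ c : X.Mor K, ∀ v, X.eval hK c v = p := by
    intro K _ _ hK p
    exact ⟨(Sum.inl p.1, Sum.inl p.2), fun v => rfl⟩
  -- the main vanishing
  have key : ∀ c : Fin n → (V₁ →* ℤˣ) × (V₂ →* ℤˣ),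
      ∑ σ : Equiv.Perm (Fin n), ((Equiv.Perm.sign σ : ℤˣ) : ℤ) •
        cl (X.pow n) (ext' (fun i => (e (c i)).toLin (b (σ i)))) = 0 := by
    intro c
    by_cases hc : ∀ i, Perp V₁ V₂ G (c i)
    swap
    · push Not at hc
      obtain ⟨i, hi⟩ := hc
      unfold Perp at hi
      push Not at hi
      obtain ⟨s, hs, hne⟩ := hi
      apply Finset.sum_eq_zero
      intro σ _
      have h0 : ext' (fun i => (e (c i)).toLin (b (σ i))) = 0 := by
        rw [← extM_apply]
        apply MultilinearMap.map_coord_zero _ i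
        exact eop_invariant h₁ h₂ V₁ V₂ s (c i).1 (c i).2 hne (b (σ i)) (hinv (σ i) s hs)
      rw [h0, map_zero, smul_zero]
    · -- a large block
      obtain ⟨χ, hχ⟩ : ∃ χ : (V₁ →* ℤˣ) × (V₂ →* ℤˣ), g₁ χ.1 * g₂ χ.2 <
          (Finset.univ.filter (fun i => c i = χ)).card := by
        by_contra hcon
        push Not at hcon
        rw [finsum_eq_sum_of_fintype] at hn
        have h1 : n = ∑ χ : {χ : (V₁ →* ℤˣ) × (V₂ →* ℤˣ) // Perp V₁ V₂ G χ},
            (Finset.univ.filter (fun i => c i = χ.1)).card := by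
          have h2 := Finset.card_eq_sum_card_fiberwise (s := (Finset.univ : Finset (Fin n)))
            (t := (Finset.univ : Finset {χ : (V₁ →* ℤˣ) × (V₂ →* ℤˣ) // Perp V₁ V₂ G χ}))
            (f := fun i => ⟨c i, hc i⟩) (fun i _ => Finset.mem_coe.mpr (Finset.mem_univ _))
          rw [Finset.card_univ, Fintype.card_fin] at h2
          refine h2.trans ?_
          apply Finset.sum_congr rfl
          intro χ _
          congr 1
          ext i
          simp only [Finset.mem_filter, Finset.mem_univ, true_and]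
          constructor
          · intro h; rw [← h]
          · intro h; exact Subtype.ext h
        have h3 : ∑ χ : {χ : (V₁ →* ℤˣ) × (V₂ →* ℤˣ) // Perp V₁ V₂ G χ},
            (Finset.univ.filter (fun i => c i = χ.1)).card ≤
            ∑ χ : {χ : (V₁ →* ℤˣ) × (V₂ →* ℤˣ) // Perp V₁ V₂ G χ}, g₁ χ.1.1 * g₂ χ.1.2 :=
          Finset.sum_le_sum (fun χ _ => hcon χ.1)
        omega
      set J : Finset (Fin n) := Finset.univ.filter (fun i => c i = χ) with hJ
      have hmemJ : ∀ i, i ∈ J ↔ c i = χ := by intro i; simp [hJ]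
      let W : Equiv.Perm (Fin n) → ChowQ (X.pow n) := fun σ =>
        cl (X.pow n) (ext' (fun i => (E (c i)).toLin (b (σ i))))
      have hW : ∀ σ : Equiv.Perm (Fin n),
          cl (X.pow n) (ext' (fun i => (e (c i)).toLin (b (σ i)))) = W σ := by
        intro σ
        apply cl_ext'_congr n X hconst
        intro i
        simp only [E]
        rw [← eop_TS, ← map_sub]
        exact IOp.toLin_rat _ (albanese_sub_TS h₁ h₂ o _ (hb (σ i)))
      -- the vanishing over the block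
      set m : ℤ := (Fintype.card (kerS V₁ χ.1) : ℤ) * (Fintype.card (kerS V₂ χ.2) : ℤ) with hm
      have hm0 : m ≠ 0 := by
        rw [hm]
        have a1 : Fintype.card (kerS V₁ χ.1) ≠ 0 := Fintype.card_ne_zero
        have a2 : Fintype.card (kerS V₂ χ.2) ≠ 0 := Fintype.card_ne_zero
        exact mul_ne_zero (by exact_mod_cast a1) (by exact_mod_cast a2)
      have hblock : ∀ σ : Equiv.Perm (Fin n),
          ∑ ρ ∈ permOn J, ((Equiv.Perm.sign ρ : ℤˣ) : ℤ) • W (σ * ρ) = 0 := by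
        intro σ
        have h1 := block_cycles h₁ h₂ n (kerS V₁ χ.1) (g₁ χ.1) (hg₁ χ.1) (kerS V₂ χ.2) (g₂ χ.2)
          (hg₂ χ.2) o.1 o.2 J hχ
          (fun i => if i ∈ J then Lop h₁ (kerS V₁ χ.1) o.1 else IOp.id _)
          (fun i => if i ∈ J then Lop h₂ (kerS V₂ χ.2) o.2 else IOp.id _)
          (fun i hi => if_pos hi) (fun i hi => if_pos hi)
          (fun i => (E (c i)).toLin (b (σ i)))
        have h2 : ∀ ρ ∈ permOn J, cl (X.pow n) (ext' (fun i =>
            (((if i ∈ J then Lop h₁ (kerS V₁ χ.1) o.1 else IOp.id _ : IOp (curve h₁)).prod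
            (if i ∈ J then Lop h₂ (kerS V₂ χ.2) o.2 else IOp.id _ : IOp (curve h₂))).toLin
              ((E (c (ρ i))).toLin (b (σ (ρ i))))))) = (m ^ J.card) • W (σ * ρ) := by
          intro ρ hρ
          rw [mem_permOn] at hρ
          have hρJ : ∀ i ∈ J, ρ i ∈ J := by
            intro i hi
            by_contra hcon
            have h3 := hρ _ hcon
            have h4 : ρ i = i := ρ.injective h3
            rw [h4] at hcon
            exact hcon hi
          have h3 : ∀ i, (((if i ∈ J then Lop h₁ (kerS V₁ χ.1) o.1 else IOp.id _ :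
              IOp (curve h₁)).prod
              (if i ∈ J then Lop h₂ (kerS V₂ χ.2) o.2 else IOp.id _ : IOp (curve h₂))).toLin
              ((E (c (ρ i))).toLin (b (σ (ρ i))))) =
              (if i ∈ J then m else 1) • (E (c i)).toLin (b ((σ * ρ) i)) := by
            intro i
            by_cases hi : i ∈ J
            · rw [if_pos hi, if_pos hi, if_pos hi]
              have c1 : c i = χ := (hmemJ i).mp hi
              have c2 : c (ρ i) = χ := (hmemJ _).mp (hρJ i hi)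
              rw [c1, c2]
              exact LopEop h₁ h₂ V₁ V₂ o χ.1 χ.2 _
            · rw [if_neg hi, if_neg hi, if_neg hi, one_smul, hρ i hi, Equiv.Perm.mul_apply,
                hρ i hi]
              have hid : ((IOp.id (curve h₁)).prod (IOp.id (curve h₂))).toLin =
                  LinearMap.id := by
                apply Finsupp.lhom_ext'
                rintro ⟨p, q⟩
                apply LinearMap.ext_ring
                rw [LinearMap.comp_apply, LinearMap.comp_apply, Finsupp.lsingle_apply,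
                  prod_toLin_single, IOp.id_toLin, IOp.id_toLin, LinearMap.id_apply,
                  LinearMap.id_apply, bx_single, one_mul, LinearMap.id_apply]
              rw [hid, LinearMap.id_apply]
          simp only [h3]
          rw [← extM_apply, MultilinearMap.map_smul_univ, map_smul]
          simp only [W]
          congr 1
          rw [Finset.prod_ite, Finset.prod_const, Finset.prod_const, one_pow, mul_one]
          congr 2
          ext i
          simp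
        have h3 : ∑ ρ ∈ permOn J, ((Equiv.Perm.sign ρ : ℤˣ) : ℤ) •
            (m ^ J.card) • W (σ * ρ) = 0 := by
          rw [← h1]
          apply Finset.sum_congr rfl
          intro ρ hρ
          rw [← h2 ρ hρ]
        have h4 : (m ^ J.card) • ∑ ρ ∈ permOn J, ((Equiv.Perm.sign ρ : ℤˣ) : ℤ) • W (σ * ρ) =
            0 := by
          rw [Finset.smul_sum, ← h3]
          apply Finset.sum_congr rfl
          intro ρ _
          rw [smul_comm]
        rw [← Int.cast_smul_eq_zsmul ℚ] at h4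
        rcases smul_eq_zero.mp h4 with h | h
        · exfalso
          have : (m ^ J.card : ℤ) ≠ 0 := pow_ne_zero _ hm0
          exact this (by exact_mod_cast h)
        · exact h
      simp only [hW]
      have h5 : (permOn J).card • ∑ σ : Equiv.Perm (Fin n), ((Equiv.Perm.sign σ : ℤˣ) : ℤ) •
          W σ = 0 := by
        have h6 : ∀ ρ ∈ permOn J, ∑ σ : Equiv.Perm (Fin n), ((Equiv.Perm.sign σ : ℤˣ) : ℤ) • W σ =
            ∑ σ : Equiv.Perm (Fin n), ((Equiv.Perm.sign σ : ℤˣ) : ℤ) •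
              (((Equiv.Perm.sign ρ : ℤˣ) : ℤ) • W (σ * ρ)) := by
          intro ρ _
          symm
          refine Fintype.sum_equiv (Equiv.mulRight ρ) _ _ (fun σ => ?_)
          rw [Equiv.coe_mulRight, smul_smul, Equiv.Perm.sign_mul, Units.val_mul]
        rw [← Finset.sum_const, Finset.sum_congr rfl h6, Finset.sum_comm]
        apply Finset.sum_eq_zero
        intro σ _
        rw [← Finset.smul_sum, hblock σ, smul_zero]
      rw [← Nat.cast_smul_eq_nsmul ℚ] at h5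
      rcases smul_eq_zero.mp h5 with h | h
      · exfalso
        have h7 : (permOn J).card ≠ 0 := by
          apply Finset.card_ne_zero_of_mem (a := 1)
          rw [mem_permOn]
          intro i _
          rfl
        exact h7 (by exact_mod_cast h)
      · exact h
  -- expansion
  set N : ℤ := (Fintype.card (V₁ →* ℤˣ) : ℤ) * (Fintype.card (V₂ →* ℤˣ) : ℤ) with hN
  have hN0 : N ≠ 0 := by
    have a1 : Fintype.card (V₁ →* ℤˣ) ≠ 0 := Fintype.card_ne_zero
    have a2 : Fintype.card (V₂ →* ℤˣ) ≠ 0 := Fintype.card_ne_zero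
    exact mul_ne_zero (by exact_mod_cast a1) (by exact_mod_cast a2)
  have hexp : ∀ σ : Equiv.Perm (Fin n), (N ^ n) • cl (X.pow n) (ext' (fun i => b (σ i))) =
      ∑ c : Fin n → (V₁ →* ℤˣ) × (V₂ →* ℤˣ),
        cl (X.pow n) (ext' (fun i => (e (c i)).toLin (b (σ i)))) := by
    intro σ
    have h1 : ext' (fun i => N • b (σ i)) = (N ^ n) • ext' (fun i => b (σ i)) := by
      rw [← extM_apply, MultilinearMap.map_smul_univ, extM_apply]
      simp
    rw [← map_smul, ← h1]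
    have h2 : ∀ i, N • b (σ i) = ∑ χ : (V₁ →* ℤˣ) × (V₂ →* ℤˣ), (e χ).toLin (b (σ i)) :=
      fun i => (sum_eop2 h₁ h₂ V₁ V₂ e₁ e₂ (b (σ i))).symm
    simp only [h2]
    rw [← extM_apply, MultilinearMap.map_sum, map_sum]
    rfl
  have hfin : (N ^ n) • cl (X.pow n) (∑ σ : Equiv.Perm (Fin n),
      ((Equiv.Perm.sign σ : ℤˣ) : ℤ) • ext' (fun i => b (σ i))) = 0 := by
    rw [map_sum, Finset.smul_sum]
    have h1 : ∀ σ : Equiv.Perm (Fin n), (N ^ n) • cl (X.pow n)
        (((Equiv.Perm.sign σ : ℤˣ) : ℤ) • ext' (fun i => b (σ i))) =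
        ∑ c : Fin n → (V₁ →* ℤˣ) × (V₂ →* ℤˣ), ((Equiv.Perm.sign σ : ℤˣ) : ℤ) •
          cl (X.pow n) (ext' (fun i => (e (c i)).toLin (b (σ i)))) := by
      intro σ
      rw [map_smul, smul_comm, hexp, Finset.smul_sum]
    rw [Finset.sum_congr rfl (fun σ _ => h1 σ), Finset.sum_comm]
    exact Finset.sum_eq_zero (fun c _ => key c)
  rw [← Int.cast_smul_eq_zsmul ℚ] at hfin
  rcases smul_eq_zero.mp hfin with h | h
  · exfalso
    have : (N ^ n : ℤ) ≠ 0 := pow_ne_zero _ hN0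
    exact this (by exact_mod_cast h)
  · exact h

end main

end VQ
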