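import Mathlib
import Pool.Agent.Helper94.VQ.Main

/-!
# The alternating sum on the quotient surface
-/

namespace VQ

open VC Function

universe u

section

variable {k : Type u} [Field k]
  {F₁ F₂ : Type u} [Field F₁] [Algebra k F₁] [Field F₂] [Algebra k F₂]
  (h₁ : IsFunctionField k F₁) (h₂ : IsFunctionField k F₂)
  (V₁ : Subgroup (F₁ ≃ₐ[k] F₁)) (V₂ : Subgroup (F₂ ≃ₐ[k] F₂)) (G : Subgroup (V₁ × V₂))

lemma pullCycle_eq (a : (quotSurface h₁ h₂ V₁ V₂ G).Cycles) :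
    pullCycle h₁ h₂ V₁ V₂ G a = Finsupp.linearCombination ℤ (pullPt h₁ h₂ V₁ V₂ G) a := rfl

variable [Finite V₁] [Finite V₂]

lemma pullPt_mk [Fintype G] (p : Place k F₁ × Place k F₂) :
    pullPt h₁ h₂ V₁ V₂ G (Quotient.mk _ p) =
      ∑ s : G, Finsupp.single (act2 h₁ h₂ V₁ V₂ s.1 p) 1 := by
  unfold pullPt
  rw [Quotient.lift_mk, finsum_eq_sum_of_fintype]

lemma pull_inv (s : V₁ × V₂) (hs : s ∈ G) (a : (quotSurface h₁ h₂ V₁ V₂ G).Cycles) :
    Finsupp.mapDomain (act2 h₁ h₂ V₁ V₂ s) (pullCycle h₁ h₂ V₁ V₂ G a) =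
      pullCycle h₁ h₂ V₁ V₂ G a := by
  have : Fintype G := Fintype.ofFinite G
  have h : Finsupp.lmapDomain ℤ ℤ (act2 h₁ h₂ V₁ V₂ s) ∘ₗ
      Finsupp.linearCombination ℤ (pullPt h₁ h₂ V₁ V₂ G) =
      Finsupp.linearCombination ℤ (pullPt h₁ h₂ V₁ V₂ G) := by
    apply Finsupp.lhom_ext'
    intro q
    apply LinearMap.ext_ring
    induction q using Quotient.ind with
    | _ p =>
      rw [LinearMap.comp_apply, LinearMap.comp_apply, LinearMap.comp_apply, Finsupp.lsingle_apply,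
        Finsupp.linearCombination_single, one_smul, pullPt_mk, map_sum]
      refine Fintype.sum_equiv (Equiv.mulRight (⟨s, hs⟩ : G)) _ _ (fun t => ?_)
      rw [Finsupp.lmapDomain_apply, Finsupp.mapDomain_single, ← act2_mul]
      rfl
  exact congrArg (fun f => f a) h

lemma push_pull (a : (quotSurface h₁ h₂ V₁ V₂ G).Cycles) :
    Finsupp.mapDomain (Quotient.mk (orbitSetoid h₁ h₂ V₁ V₂ G)) (pullCycle h₁ h₂ V₁ V₂ G a) =
      (Nat.card G : ℤ) • a := by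
  have : Fintype G := Fintype.ofFinite G
  have h : Finsupp.lmapDomain ℤ ℤ (Quotient.mk (orbitSetoid h₁ h₂ V₁ V₂ G)) ∘ₗ
      Finsupp.linearCombination ℤ (pullPt h₁ h₂ V₁ V₂ G) =
      (Nat.card G : ℤ) • LinearMap.id := by
    apply Finsupp.lhom_ext'
    intro q
    apply LinearMap.ext_ring
    induction q using Quotient.ind with
    | _ p =>
      rw [LinearMap.comp_apply, LinearMap.comp_apply, LinearMap.comp_apply, LinearMap.smul_apply,
        Finsupp.lsingle_apply,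
        Finsupp.linearCombination_single, one_smul, pullPt_mk, map_sum, LinearMap.id_apply]
      have h1 : ∀ t : G, Finsupp.lmapDomain ℤ ℤ (Quotient.mk (orbitSetoid h₁ h₂ V₁ V₂ G))
          (Finsupp.single (act2 h₁ h₂ V₁ V₂ t.1 p) 1) =
          Finsupp.single (Quotient.mk (orbitSetoid h₁ h₂ V₁ V₂ G) p) 1 := by
        intro t
        rw [Finsupp.lmapDomain_apply, Finsupp.mapDomain_single]
        congr 1
        exact Quotient.sound ⟨t.1⁻¹, G.inv_mem t.2, by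
          rw [← act2_mul, mul_inv_cancel, act2_one]⟩
      rw [Finset.sum_congr rfl (fun t _ => h1 t), Finset.sum_const, Finset.card_univ,
        Nat.card_eq_fintype_card, natCast_zsmul]
  exact congrArg (fun f => f a) h

end

section

variable {k : Type u} [Field k] [IsAlgClosed k] [CharZero k]
  {F₁ F₂ : Type u} [Field F₁] [Algebra k F₁] [Field F₂] [Algebra k F₂]
  (h₁ : IsFunctionField k F₁) (h₂ : IsFunctionField k F₂)
  (V₁ : Subgroup (F₁ ≃ₐ[k] F₁)) (V₂ : Subgroup (F₂ ≃ₐ[k] F₂)) [Finite V₁] [Finite V₂]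
  (G : Subgroup (V₁ × V₂)) (n : ℕ)

theorem alternating_quot (e₁ : ∀ σ : V₁, σ * σ = 1) (e₂ : ∀ σ : V₂, σ * σ = 1)
    (g₁ : (V₁ →* ℤˣ) → ℕ) (g₂ : (V₂ →* ℤˣ) → ℕ)
    (hg₁ : ∀ χ, ∀ D : Place k (IntermediateField.fixedField (kerS V₁ χ)) →₀ ℤ,
      (D.sum fun _ m => m) + 1 ≤
        (Module.finrank k (riemannRochSpace k (IntermediateField.fixedField (kerS V₁ χ)) D) : ℤ)
          + g₁ χ)
    (hg₂ : ∀ χ, ∀ D : Place k (IntermediateField.fixedField (kerS V₂ χ)) →₀ ℤ,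
      (D.sum fun _ m => m) + 1 ≤
        (Module.finrank k (riemannRochSpace k (IntermediateField.fixedField (kerS V₂ χ)) D) : ℤ)
          + g₂ χ)
    (hn : ∑ᶠ χ : {χ : (V₁ →* ℤˣ) × (V₂ →* ℤˣ) // Perp V₁ V₂ G χ}, g₁ χ.1.1 * g₂ χ.1.2 < n)
    (a : Fin n → (quotSurface h₁ h₂ V₁ V₂ G).Cycles)
    (ha : ∀ i, AlbaneseTrivial (curve h₁) (curve h₂) (pullCycle h₁ h₂ V₁ V₂ G (a i))) :
    ∃ m : ℕ, 0 < m ∧ m • ∑ σ : Equiv.Perm (Fin n), ((Equiv.Perm.sign σ : ℤˣ) : ℤ) •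
      extProd (fun i => a (σ i)) ∈ ((quotSurface h₁ h₂ V₁ V₂ G).pow n).Rat := by
  have h0 := alternating_invariant h₁ h₂ V₁ V₂ G n e₁ e₂ g₁ g₂ hg₁ hg₂ hn
    (fun i => pullCycle h₁ h₂ V₁ V₂ G (a i)) ha (fun i s hs => pull_inv h₁ h₂ V₁ V₂ G s hs (a i))
  rw [cl_eq_zero_iff] at h0
  obtain ⟨m, hm, hmem⟩ := h0
  have hind : Induced (((curve h₁).prod (curve h₂)).pow n) ((quotSurface h₁ h₂ V₁ V₂ G).pow n)
      (fun (p : Fin n → Place k F₁ × Place k F₂) i =>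
        Quotient.mk (orbitSetoid h₁ h₂ V₁ V₂ G) (p i)) := by
    intro K _ _ hK c
    exact ⟨c, fun v => rfl⟩
  have h1 := map_rat _ _ _ hind hmem
  have hcard : Nat.card G ≠ 0 := Nat.card_pos.ne'
  refine ⟨m * Nat.card G ^ n, by positivity, ?_⟩
  have h2 : Finsupp.mapDomain (fun (p : Fin n → Place k F₁ × Place k F₂) i =>
        Quotient.mk (orbitSetoid h₁ h₂ V₁ V₂ G) (p i))
      (m • ∑ σ : Equiv.Perm (Fin n), ((Equiv.Perm.sign σ : ℤˣ) : ℤ) •
        ext' (fun i => pullCycle h₁ h₂ V₁ V₂ G (a (σ i)))) =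
      (m * Nat.card G ^ n) • ∑ σ : Equiv.Perm (Fin n), ((Equiv.Perm.sign σ : ℤˣ) : ℤ) •
        ext' (fun i => a (σ i)) := by
    rw [← Finsupp.lmapDomain_apply ℤ ℤ, map_nsmul, map_sum, mul_smul]
    congr 1
    rw [Finset.smul_sum]
    apply Finset.sum_congr rfl
    intro σ _
    rw [map_smul, Finsupp.lmapDomain_apply,
      mapDomain_ext'' (fun (_ : Fin n) (p : Place k F₁ × Place k F₂) =>
        Quotient.mk (orbitSetoid h₁ h₂ V₁ V₂ G) p)]
    have h3 : ∀ i, Finsupp.mapDomain (fun p : Place k F₁ × Place k F₂ =>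
        Quotient.mk (orbitSetoid h₁ h₂ V₁ V₂ G) p) (pullCycle h₁ h₂ V₁ V₂ G (a (σ i))) =
        (Nat.card G : ℤ) • a (σ i) := fun i => push_pull h₁ h₂ V₁ V₂ G (a (σ i))
    simp only [h3]
    rw [← extM_apply, MultilinearMap.map_smul_univ, extM_apply]
    rw [smul_comm]
    congr 1
    simp only [Finset.prod_const, Finset.card_univ, Fintype.card_fin]
    rw [Nat.cast_pow]
  have h3 : (m * Nat.card G ^ n) • ∑ σ : Equiv.Perm (Fin n), ((Equiv.Perm.sign σ : ℤˣ) : ℤ) •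
        ext' (fun i => a (σ i)) ∈ ((quotSurface h₁ h₂ V₁ V₂ G).pow n).Rat := by
    rw [← h2]
    exact h1
  exact h3

end

end VQ
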